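import Mathlib

open MeasureTheory Set
open scoped ENNReal

namespace Pool.Agent.Q246.RO

/-- The circle `ℝ/ℤ`. -/
abbrev TT : Type := UnitAddCircle

/-- The half-open arc `[β, β + r)` modulo one. -/
def ar (β r : ℝ) : Set TT := (fun s : ℝ => ((s : ℝ) : TT)) '' Ico β (β + r)

theorem coe_eq_iff (s t : ℝ) : ((s : ℝ) : TT) = (t : TT) ↔ ∃ n : ℤ, s - t = n := by
  rw [← sub_eq_zero, ← AddCircle.coe_sub, AddCircle.coe_eq_zero_iff]
  constructor
  · rintro ⟨n, hn⟩; exact ⟨n, by simpa using hn.symm⟩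
  · rintro ⟨n, hn⟩; exact ⟨n, by simpa using hn.symm⟩

theorem measurableSet_ar (β r : ℝ) : MeasurableSet (ar β r) := by
  have h : Ico β (β + r) = ⋃ n : ℕ, Icc β (β + r - 1 / ((n : ℝ) + 1)) := by
    ext x
    simp only [mem_Ico, mem_iUnion, mem_Icc]
    constructor
    · rintro ⟨h1, h2⟩
      obtain ⟨n, hn⟩ := exists_nat_one_div_lt (show (0 : ℝ) < β + r - x by linarith)
      exact ⟨n, h1, by linarith⟩
    · rintro ⟨n, h1, h2⟩
      have : (0 : ℝ) < 1 / ((n : ℝ) + 1) := by positivity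
      exact ⟨h1, by linarith⟩
  unfold ar
  rw [h, image_iUnion]
  refine MeasurableSet.iUnion fun n => ?_
  have hc : Continuous (fun s : ℝ => ((s : ℝ) : TT)) := AddCircle.continuous_mk' 1
  exact (isCompact_Icc.image hc).isClosed.measurableSet

theorem vol_univ : (volume : Measure TT) univ = 1 := UnitAddCircle.measure_univ

instance : IsProbabilityMeasure (volume : Measure TT) := ⟨vol_univ⟩

theorem vol_ar_le (β : ℝ) (r : ℝ) : (volume : Measure TT) (ar β r) ≤ ENNReal.ofReal r := by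
  rcases le_or_gt 1 r with h1 | h1
  · calc (volume : Measure TT) (ar β r) ≤ volume (univ : Set TT) := measure_mono (subset_univ _)
      _ = ENNReal.ofReal 1 := by rw [vol_univ]; simp
      _ ≤ _ := ENNReal.ofReal_le_ofReal h1
  · have := AddCircle.add_projection_respects_measure (T := 1) β (measurableSet_ar β r)
    rw [this]
    have hsub : (QuotientAddGroup.mk ⁻¹' (ar β r) ∩ Ioc β (β + 1) : Set ℝ) ⊆
        Ico β (β + r) ∪ {β + 1} := by
      rintro s ⟨⟨s', hs', he⟩, h2, h3⟩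
      obtain ⟨n, hn⟩ := (coe_eq_iff s' s).1 he
      obtain ⟨h4, h5⟩ := hs'
      have hn1 : (n : ℝ) < 1 := by linarith
      have hn2 : (-1 : ℝ) ≤ n := by linarith
      have hn3 : n < 1 := by exact_mod_cast hn1
      have hn4 : -1 ≤ n := by exact_mod_cast hn2
      have : n = 0 ∨ n = -1 := by omega
      rcases this with rfl | rfl
      · left; push_cast at hn; exact ⟨by linarith, by linarith⟩
      · right; push_cast at hn; simp only [mem_singleton_iff]; linarith
    calc volume (QuotientAddGroup.mk ⁻¹' (ar β r) ∩ Ioc β (β + 1) : Set ℝ)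
        ≤ volume (Ico β (β + r) ∪ {β + 1}) := measure_mono hsub
      _ ≤ volume (Ico β (β + r)) + volume {β + 1} := measure_union_le _ _
      _ = ENNReal.ofReal r := by simp

theorem vol_ar_ge (β : ℝ) {r : ℝ} (hr1 : r ≤ 1) : ENNReal.ofReal r ≤ (volume : Measure TT) (ar β r) := by
  have := AddCircle.add_projection_respects_measure (T := 1) β (measurableSet_ar β r)
  rw [this]
  have hsub : Ioo β (β + r) ⊆ (QuotientAddGroup.mk ⁻¹' (ar β r) ∩ Ioc β (β + 1) : Set ℝ) := by
    rintro s ⟨h2, h3⟩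
    exact ⟨⟨s, ⟨h2.le, h3⟩, rfl⟩, h2, by linarith⟩
  calc ENNReal.ofReal r = volume (Ioo β (β + r)) := by simp
    _ ≤ _ := measure_mono hsub

theorem mp_nsmul {n : ℕ} (hn : 0 < n) :
    MeasurePreserving (fun y : TT => n • y) volume volume := by
  rcases Nat.lt_or_ge 1 n with h | h
  · exact (AddCircle.ergodic_nsmul (T := 1) h).toMeasurePreserving
  · obtain rfl : n = 1 := by omega
    simp only [one_nsmul]
    exact MeasurePreserving.id (volume : Measure TT)

/-- Number of points `y + q i / p` in an arc of length `θ`. -/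
theorem count_le {p q : ℕ} (hp : 0 < p) (hpq : Nat.Coprime q p) (y : TT) (β θ : ℝ) (hθ : 0 ≤ θ)
    (s : Finset ℕ) (hs : ∀ i ∈ s, i < p ∧ y + ((((q * i : ℕ) : ℝ) / p : ℝ) : TT) ∈ ar β θ) :
    (s.card : ℝ) ≤ p * θ + 1 := by
  classical
  obtain ⟨y0, rfl⟩ := QuotientAddGroup.mk_surjective y
  have hp' : (0 : ℝ) < p := by exact_mod_cast hp
  have key : ∀ i ∈ s, ∃ z : ℤ, (p : ℝ) * (β - y0) ≤ z ∧ (z : ℝ) < p * (β - y0) + p * θ ∧
      ((z : ℤ) : ZMod p) = ((q * i : ℕ) : ZMod p) := by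
    intro i hi
    obtain ⟨_, t, ⟨ht1, ht2⟩, ht⟩ := hs i hi
    have : ((t : ℝ) : TT) = ((y0 + ((q * i : ℕ) : ℝ) / p : ℝ) : TT) := by
      rw [AddCircle.coe_add]; exact ht
    obtain ⟨n, hn⟩ := (coe_eq_iff _ _).1 this
    refine ⟨(q * i : ℕ) + n * p, ?_, ?_, ?_⟩
    · have : (p : ℝ) * (t - y0) = ((q * i : ℕ) : ℝ) + n * p := by
        rw [show t - y0 = ((q * i : ℕ) : ℝ) / p + n by linarith]
        field_simp
      push_cast at this ⊢
      nlinarith
    · have : (p : ℝ) * (t - y0) = ((q * i : ℕ) : ℝ) + n * p := by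
        rw [show t - y0 = ((q * i : ℕ) : ℝ) / p + n by linarith]
        field_simp
      push_cast at this ⊢
      nlinarith
    · push_cast; simp
  choose! z hz1 hz2 hz3 using key
  have hinj : Set.InjOn z s := by
    intro i hi j hj hij
    have h1 := hz3 i hi
    have h2 := hz3 j hj
    rw [hij, h2] at h1
    have h3 : (q * j) ≡ (q * i) [MOD p] := (ZMod.natCast_eq_natCast_iff _ _ _).1 h1
    have h4 : j ≡ i [MOD p] := Nat.ModEq.cancel_left_of_coprime (by rwa [Nat.coprime_comm] at hpq) h3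
    have := Nat.ModEq.eq_of_lt_of_lt h4 (hs j hj).1 (hs i hi).1
    exact this.symm
  have hsub : s.image z ⊆ Finset.Ico ⌈(p : ℝ) * (β - y0)⌉ ⌈(p : ℝ) * (β - y0) + p * θ⌉ := by
    intro w hw
    obtain ⟨i, hi, rfl⟩ := Finset.mem_image.1 hw
    rw [Finset.mem_Ico]
    exact ⟨Int.ceil_le.2 (hz1 i hi), Int.lt_ceil.2 (hz2 i hi)⟩
  have hc := Finset.card_le_card hsub
  rw [Finset.card_image_of_injOn hinj, Int.card_Ico] at hc
  have h5 : ((⌈(p : ℝ) * (β - y0) + p * θ⌉ - ⌈(p : ℝ) * (β - y0)⌉).toNat : ℝ) ≤ p * θ + 1 := by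
    have h6 : (0 : ℤ) ≤ ⌈(p : ℝ) * (β - y0) + p * θ⌉ - ⌈(p : ℝ) * (β - y0)⌉ := by
      have : ⌈(p : ℝ) * (β - y0)⌉ ≤ ⌈(p : ℝ) * (β - y0) + p * θ⌉ :=
        Int.ceil_le_ceil (by nlinarith)
      omega
    have h7 : (((⌈(p : ℝ) * (β - y0) + p * θ⌉ - ⌈(p : ℝ) * (β - y0)⌉).toNat : ℤ) : ℝ) =
        ((⌈(p : ℝ) * (β - y0) + p * θ⌉ - ⌈(p : ℝ) * (β - y0)⌉ : ℤ) : ℝ) := by
      rw [Int.toNat_of_nonneg h6]
    have h8 := Int.ceil_lt_add_one ((p : ℝ) * (β - y0) + p * θ)
    have h9 := Int.le_ceil ((p : ℝ) * (β - y0))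
    rw [Int.cast_natCast] at h7
    rw [h7]; push_cast; linarith
  calc (s.card : ℝ) ≤ ((⌈(p : ℝ) * (β - y0) + p * θ⌉ - ⌈(p : ℝ) * (β - y0)⌉).toNat : ℝ) := by
        exact_mod_cast hc
    _ ≤ _ := h5

theorem pair_coprime {p q : ℕ} (hp : 0 < p) (hpq : Nat.Coprime q p) {J : Set TT}
    (hJ : MeasurableSet J) (β θ : ℝ) (hθ : 0 ≤ θ) :
    (volume : Measure TT) {x | p • x ∈ J ∧ q • x ∈ ar β θ} ≤
      volume J * ENNReal.ofReal (θ + 1 / p) := by
  classical
  have hp' : (0 : ℝ) < p := by exact_mod_cast hp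
  have hmp : Measurable (fun x : TT => p • x) := (continuous_nsmul p).measurable
  have hmq : Measurable (fun x : TT => q • x) := (continuous_nsmul q).measurable
  set S' : ℕ → Set TT := fun i => {x | p • x ∈ J ∧ q • x + ((((q * i : ℕ) : ℝ) / p : ℝ) : TT) ∈ ar β θ}
    with hS'
  have hSm : ∀ i, MeasurableSet (S' i) := by
    intro i
    exact (hmp hJ).inter ((hmq.add_const _) (measurableSet_ar β θ))
  have h1 : ∀ i, (volume : Measure TT) {x | p • x ∈ J ∧ q • x ∈ ar β θ} = volume (S' i) := by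
    intro i
    have h2 : S' i = (fun x : TT => x + (((i : ℝ) / p : ℝ) : TT)) ⁻¹'
        {x | p • x ∈ J ∧ q • x ∈ ar β θ} := by
      ext x
      simp only [hS', mem_ofPred_eq, mem_preimage, smul_add]
      have e1 : p • ((((i : ℝ) / p : ℝ)) : TT) = 0 := by
        rw [← AddCircle.coe_nsmul, nsmul_eq_mul, mul_div_cancel₀ _ hp'.ne']
        exact (AddCircle.coe_eq_zero_iff (1 : ℝ)).2 ⟨i, by simp⟩
      have e2 : q • ((((i : ℝ) / p : ℝ)) : TT) = ((((q * i : ℕ) : ℝ) / p : ℝ) : TT) := by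
        rw [← AddCircle.coe_nsmul, nsmul_eq_mul]
        push_cast
        rw [mul_div_assoc]
      rw [e1, e2, add_zero]
    rw [h2, measure_preimage_add_right]
  have h3 : (p : ℝ≥0∞) * volume {x : TT | p • x ∈ J ∧ q • x ∈ ar β θ} ≤
      ENNReal.ofReal (p * θ + 1) * volume J := by
    calc (p : ℝ≥0∞) * volume {x : TT | p • x ∈ J ∧ q • x ∈ ar β θ}
        = ∑ i ∈ Finset.range p, volume (S' i) := by
          rw [Finset.sum_congr rfl (fun i _ => (h1 i).symm), Finset.sum_const, Finset.card_range,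
            nsmul_eq_mul]
      _ = ∑ i ∈ Finset.range p, ∫⁻ x, (S' i).indicator 1 x ∂volume := by
          refine Finset.sum_congr rfl fun i _ => ?_
          rw [lintegral_indicator_one (hSm i)]
      _ = ∫⁻ x, ∑ i ∈ Finset.range p, (S' i).indicator 1 x ∂volume := by
          rw [lintegral_finsetSum _ (fun i _ => measurable_one.indicator (hSm i))]
      _ ≤ ∫⁻ x, ((fun x : TT => p • x) ⁻¹' J).indicator (fun _ => ENNReal.ofReal (p * θ + 1)) x
            ∂volume := by
          refine lintegral_mono fun x => ?_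
          by_cases hx : p • x ∈ J
          · rw [Set.indicator_of_mem (show x ∈ (fun x : TT => p • x) ⁻¹' J from hx)]
            have h4 : ∀ i, (S' i).indicator (1 : TT → ℝ≥0∞) x =
                if q • x + ((((q * i : ℕ) : ℝ) / p : ℝ) : TT) ∈ ar β θ then 1 else 0 := by
              intro i
              simp only [hS', Set.indicator, mem_ofPred_eq, hx, true_and, Pi.one_apply]
            rw [Finset.sum_congr rfl fun i _ => h4 i, ← Finset.sum_filter, Finset.sum_const,
              nsmul_eq_mul, mul_one]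
            have h5 := count_le hp hpq (q • x) β θ hθ
              ((Finset.range p).filter fun i => q • x + ((((q * i : ℕ) : ℝ) / p : ℝ) : TT) ∈ ar β θ)
              (by intro i hi; rw [Finset.mem_filter, Finset.mem_range] at hi; exact hi)
            calc _ = ENNReal.ofReal (((Finset.range p).filter fun i =>
                  q • x + ((((q * i : ℕ) : ℝ) / p : ℝ) : TT) ∈ ar β θ).card : ℝ) := by simp
              _ ≤ _ := ENNReal.ofReal_le_ofReal h5
          · rw [Finset.sum_eq_zero]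
            · exact bot_le
            · intro i _
              rw [Set.indicator_of_notMem]
              simp only [hS', mem_ofPred_eq, hx, false_and, not_false_eq_true]
      _ = ENNReal.ofReal (p * θ + 1) * volume ((fun x : TT => p • x) ⁻¹' J) := by
          rw [lintegral_indicator_const (hmp hJ)]
      _ = _ := by rw [(mp_nsmul hp).measure_preimage hJ.nullMeasurableSet]
  have h6 : ENNReal.ofReal (p * θ + 1) = p * ENNReal.ofReal (θ + 1 / p) := by
    rw [← ENNReal.ofReal_natCast p, ← ENNReal.ofReal_mul (by positivity)]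
    congr 1; field_simp
  rw [h6, mul_assoc] at h3
  have h7 := (ENNReal.mul_le_mul_iff_right (by exact_mod_cast hp.ne') (ENNReal.natCast_ne_top p)).1 h3
  rw [mul_comm]; exact h7

theorem pair_le {j j' : ℕ} (hj : 0 < j) (hj' : 0 < j') {J : Set TT}
    (hJ : MeasurableSet J) (β θ : ℝ) (hθ : 0 ≤ θ) :
    (volume : Measure TT) {x | j • x ∈ J ∧ j' • x ∈ ar β θ} ≤
      volume J * ENNReal.ofReal (θ + (Nat.gcd j j' : ℝ) / j) := by
  have hg : 0 < Nat.gcd j j' := Nat.gcd_pos_of_pos_left _ hj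
  obtain ⟨p, hp⟩ := Nat.gcd_dvd_left j j'
  obtain ⟨q, hq⟩ := Nat.gcd_dvd_right j j'
  set g := Nat.gcd j j' with hgdef
  have hp0 : 0 < p := Nat.pos_of_ne_zero (by rintro rfl; omega)
  have hcop : Nat.Coprime q p := by
    have := Nat.coprime_div_gcd_div_gcd (m := j) (n := j') hg
    rw [← hgdef] at this
    rw [hp, Nat.mul_div_cancel_left _ hg] at this
    have h2 : j' / g = q := by rw [hq, Nat.mul_div_cancel_left _ hg]
    rw [h2] at this
    exact this.symm
  have hset : {x : TT | j • x ∈ J ∧ j' • x ∈ ar β θ} =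
      (fun x : TT => g • x) ⁻¹' {y | p • y ∈ J ∧ q • y ∈ ar β θ} := by
    ext x
    simp only [mem_ofPred_eq, mem_preimage, ← mul_smul]
    rw [mul_comm p g, mul_comm q g, ← hp, ← hq]
  have hm : MeasurableSet {y : TT | p • y ∈ J ∧ q • y ∈ ar β θ} :=
    ((continuous_nsmul p).measurable hJ).inter
      ((continuous_nsmul q).measurable (measurableSet_ar β θ))
  rw [hset, (mp_nsmul hg).measure_preimage hm.nullMeasurableSet]
  refine (pair_coprime hp0 hcop hJ β θ hθ).trans (le_of_eq ?_)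
  have h1 : (0 : ℝ) < g := by exact_mod_cast hg
  have h2 : (0 : ℝ) < p := by exact_mod_cast hp0
  have h3 : (1 : ℝ) / p = (g : ℝ) / j := by
    have : (j : ℝ) = g * p := by exact_mod_cast hp
    rw [this]; field_simp
  rw [h3]

end Pool.Agent.Q246.RO
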