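import Pool.Agent.Q246.RO.Win

open MeasureTheory Set
open scoped ENNReal

namespace Pool.Agent.Q246.RO

theorem integrable_ind {S : Set TT} (hS : MeasurableSet S) :
    Integrable (S.indicator (fun _ => (1 : ℝ))) volume :=
  (integrable_const (1 : ℝ)).indicator hS

theorem integral_ind {S : Set TT} (hS : MeasurableSet S) :
    ∫ x, S.indicator (fun _ => (1 : ℝ)) x = (volume : Measure TT).real S := by
  rw [integral_indicator_const _ hS]; simp

theorem l1_bound {ι : Type*} (K : Finset ι) (w t : ι → ℝ) (hw : ∀ i ∈ K, 0 ≤ w i) (S : ι → Set TT)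
    (hS : ∀ i, MeasurableSet (S i)) (ht : ∀ i ∈ K, (volume : Measure TT).real (S i) = t i)
    (e : ι → ι → ℝ)
    (he : ∀ i ∈ K, ∀ j ∈ K, (volume : Measure TT).real (S i ∩ S j) ≤ t i * t j + e i j)
    {lam : ℝ} (hlam : 0 < lam) :
    ∫ x, |∑ i ∈ K, w i * (S i).indicator (fun _ => (1 : ℝ)) x - ∑ i ∈ K, w i * t i| ≤
      (∑ i ∈ K, ∑ j ∈ K, w i * w j * e i j) / (2 * lam) + lam / 2 := by
  set f : TT → ℝ := fun x => ∑ i ∈ K, w i * (S i).indicator (fun _ => (1 : ℝ)) x with hf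
  set m : ℝ := ∑ i ∈ K, w i * t i with hm
  have hfi : Integrable f volume := by
    refine integrable_finsetSum _ fun i _ => (integrable_ind (hS i)).const_mul _
  have hint : ∫ x, f x = m := by
    rw [hf, integral_finsetSum _ (fun i _ => (integrable_ind (hS i)).const_mul _), hm]
    refine Finset.sum_congr rfl fun i hi => ?_
    rw [integral_const_mul, integral_ind (hS i), ht i hi]
  have hsq : ∀ x, f x ^ 2 = ∑ i ∈ K, ∑ j ∈ K, w i * w j * (S i ∩ S j).indicator (fun _ => (1 : ℝ)) x := by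
    intro x
    rw [hf, sq, Finset.sum_mul_sum]
    refine Finset.sum_congr rfl fun i _ => Finset.sum_congr rfl fun j _ => ?_
    by_cases h1 : x ∈ S i <;> by_cases h2 : x ∈ S j <;> simp [Set.indicator, h1, h2]
  have hsqi : Integrable (fun x => f x ^ 2) volume := by
    have : (fun x => f x ^ 2) = fun x => ∑ i ∈ K, ∑ j ∈ K, w i * w j *
        (S i ∩ S j).indicator (fun _ => (1 : ℝ)) x := funext hsq
    rw [this]
    exact integrable_finsetSum _ fun i _ => integrable_finsetSum _ fun j _ =>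
      (integrable_ind ((hS i).inter (hS j))).const_mul _
  have hsqv : ∫ x, f x ^ 2 ≤ m ^ 2 + ∑ i ∈ K, ∑ j ∈ K, w i * w j * e i j := by
    have h1 : ∫ x, f x ^ 2 = ∑ i ∈ K, ∑ j ∈ K, w i * w j * (volume : Measure TT).real (S i ∩ S j) := by
      rw [integral_congr_ae (Filter.Eventually.of_forall hsq)]
      rw [integral_finsetSum _ (fun i _ => integrable_finsetSum _ fun j _ =>
        (integrable_ind ((hS i).inter (hS j))).const_mul _)]
      refine Finset.sum_congr rfl fun i _ => ?_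
      rw [integral_finsetSum _ (fun j _ => (integrable_ind ((hS i).inter (hS j))).const_mul _)]
      refine Finset.sum_congr rfl fun j _ => ?_
      rw [integral_const_mul, integral_ind ((hS i).inter (hS j))]
    rw [h1, hm, sq, Finset.sum_mul_sum, ← Finset.sum_add_distrib]
    refine Finset.sum_le_sum fun i hi => ?_
    rw [← Finset.sum_add_distrib]
    refine Finset.sum_le_sum fun j hj => ?_
    have h2 := he i hi j hj
    have h3 : 0 ≤ w i * w j := mul_nonneg (hw i hi) (hw j hj)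
    nlinarith [mul_le_mul_of_nonneg_left h2 h3]
  have hvar : ∫ x, (f x - m) ^ 2 ≤ ∑ i ∈ K, ∑ j ∈ K, w i * w j * e i j := by
    have h1 : ∀ x, (f x - m) ^ 2 = f x ^ 2 - 2 * m * f x + m ^ 2 := fun x => by ring
    rw [integral_congr_ae (Filter.Eventually.of_forall h1)]
    have hA : ∫ x, (f x ^ 2 - 2 * m * f x + m ^ 2) =
        (∫ x, (f x ^ 2 - 2 * m * f x)) + ∫ _x : TT, m ^ 2 :=
      integral_add (hsqi.sub (hfi.const_mul (2 * m))) (integrable_const _)
    have hB : ∫ x, (f x ^ 2 - 2 * m * f x) = (∫ x, f x ^ 2) - ∫ x, 2 * m * f x :=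
      integral_sub hsqi (hfi.const_mul (2 * m))
    rw [hA, hB, integral_const_mul, hint]
    simp only [integral_const, probReal_univ, one_smul]
    nlinarith
  have hfm2 : Integrable (fun x => (f x - m) ^ 2) volume := by
    have h1 : (fun x => (f x - m) ^ 2) = fun x => f x ^ 2 - 2 * m * f x + m ^ 2 :=
      funext fun x => by ring
    rw [h1]
    exact (hsqi.sub (hfi.const_mul _)).add (integrable_const _)
  calc ∫ x, |f x - m| ≤ ∫ x, ((f x - m) ^ 2 / (2 * lam) + lam / 2) := by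
        refine integral_mono (hfi.sub (integrable_const m)).abs ((hfm2.div_const _).add
          (integrable_const _)) fun x => ?_
        have h1 : 0 ≤ (|f x - m| - lam) ^ 2 := sq_nonneg _
        have h2 : |f x - m| ^ 2 = (f x - m) ^ 2 := sq_abs _
        have h3 : (f x - m) ^ 2 / (2 * lam) + lam / 2 = ((f x - m) ^ 2 + lam ^ 2) / (2 * lam) := by
          field_simp
        change |f x - m| ≤ (f x - m) ^ 2 / (2 * lam) + lam / 2
        rw [h3, le_div_iff₀ (by positivity)]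
        nlinarith
    _ = (∫ x, (f x - m) ^ 2) / (2 * lam) + lam / 2 := by
        rw [integral_add (hfm2.div_const _) (integrable_const _), integral_div]
        simp
    _ ≤ _ := by gcongr

theorem vol_ar (β : ℝ) {r : ℝ} (h0 : 0 ≤ r) (h1 : r ≤ 1) : (volume : Measure TT).real (ar β r) = r := by
  have h := le_antisymm (vol_ar_le β r) (vol_ar_ge β h1)
  rw [Measure.real, h, ENNReal.toReal_ofReal h0]

/-- The length of the arc of `SS`. -/
noncomputable def tt (δ h : ℝ) (i : Σ _ : ℕ, ℕ) : ℝ := jk i.1 * h + δ / gk i.1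

/-- The mean of `WW`. -/
noncomputable def mm (n : ℕ) (δ h : ℝ) : ℝ := ∑ i ∈ KK n, δ / (i.1 : ℝ) * tt δ h i

theorem measurableSet_SS (δ h : ℝ) (i : Σ _ : ℕ, ℕ) : MeasurableSet (SS δ h i) :=
  measurable_nsmul _ (measurableSet_ar _ _)

theorem gk_ge_one (k : ℕ) : (1 : ℝ) ≤ gk k := by exact_mod_cast gk_pos k

theorem conc (n : ℕ) {δ h lam : ℝ} (hδ : 0 ≤ δ) (hh : 0 ≤ h) (hle : n * h + δ ≤ 1) (hlam : 0 < lam) :
    ∫ x, |WW n δ h x - mm n δ h| ≤ 450 * δ ^ 2 * (h + δ) * HH n ^ 3 / lam + lam / 2 := by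
  have hk : ∀ i ∈ KK n, 1 ≤ i.1 ∧ i.1 ≤ n := by
    intro i hi
    obtain ⟨hk, _⟩ := Finset.mem_sigma.1 hi
    rwa [Finset.mem_Icc] at hk
  have htt : ∀ i ∈ KK n, 0 ≤ tt δ h i ∧ tt δ h i ≤ 1 := by
    intro i hi
    have hg := gk_ge_one i.1
    have hjn : (jk i.1 : ℝ) ≤ n := by exact_mod_cast (jk_le i.1).trans (hk i hi).2
    refine ⟨by unfold tt; positivity, ?_⟩
    have : δ / gk i.1 ≤ δ := div_le_self hδ hg
    unfold tt
    nlinarith
  have ht : ∀ i ∈ KK n, (volume : Measure TT).real (SS δ h i) = tt δ h i := by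
    intro i hi
    have h1 := (mp_nsmul (jk_pos (show 0 < i.1 by have := hk i hi; omega))).measure_preimage
      (measurableSet_ar ((i.2 : ℝ) / gk i.1 - jk i.1 * h) (jk i.1 * h + δ / gk i.1)).nullMeasurableSet
    have h2 := vol_ar ((i.2 : ℝ) / gk i.1 - jk i.1 * h) (htt i hi).1 (htt i hi).2
    rw [Measure.real] at h2 ⊢
    change ((volume : Measure TT) ((fun y => jk i.1 • y) ⁻¹' _)).toReal = _
    rw [h1]; exact h2
  have he : ∀ i ∈ KK n, ∀ j ∈ KK n, (volume : Measure TT).real (SS δ h i ∩ SS δ h j) ≤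
      tt δ h i * tt δ h j + (h + δ) * Nat.gcd i.1 j.1 := by
    intro i hi j hj
    have hji := jk_pos (show 0 < i.1 by have := hk i hi; omega)
    have hjj := jk_pos (show 0 < j.1 by have := hk j hj; omega)
    have hji' : (0 : ℝ) < jk i.1 := by exact_mod_cast hji
    have h1 := pair_le hji hjj (measurableSet_ar ((i.2 : ℝ) / gk i.1 - jk i.1 * h)
      (jk i.1 * h + δ / gk i.1)) ((j.2 : ℝ) / gk j.1 - jk j.1 * h)
      (jk j.1 * h + δ / gk j.1) (htt j hj).1
    have h2 : (volume : Measure TT).real (SS δ h i ∩ SS δ h j) ≤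
        tt δ h i * (tt δ h j + (Nat.gcd (jk i.1) (jk j.1) : ℝ) / jk i.1) := by
      have h3 := ENNReal.toReal_mono (by
        refine ENNReal.mul_ne_top (measure_ne_top _ _) ENNReal.ofReal_ne_top) h1
      rw [ENNReal.toReal_mul, ENNReal.toReal_ofReal (by have := (htt j hj).1; unfold tt at this; positivity)] at h3
      have h4 := vol_ar ((i.2 : ℝ) / gk i.1 - jk i.1 * h) (htt i hi).1 (htt i hi).2
      rw [Measure.real] at h4
      unfold tt at h4
      rw [h4] at h3
      exact h3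
    refine h2.trans ?_
    rw [mul_add]
    have hg := gk_ge_one i.1
    have h5 : tt δ h i * ((Nat.gcd (jk i.1) (jk j.1) : ℝ) / jk i.1) =
        (tt δ h i / jk i.1) * Nat.gcd (jk i.1) (jk j.1) := by ring
    have h6 : tt δ h i / jk i.1 ≤ h + δ := by
      unfold tt
      rw [div_le_iff₀ hji']
      have h7 : (1 : ℝ) ≤ jk i.1 := by exact_mod_cast hji
      have h8 : δ / gk i.1 ≤ δ := div_le_self hδ hg
      nlinarith
    have h9 : (Nat.gcd (jk i.1) (jk j.1) : ℝ) ≤ Nat.gcd i.1 j.1 := by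
      have hd : Nat.gcd (jk i.1) (jk j.1) ∣ Nat.gcd i.1 j.1 :=
        Nat.dvd_gcd ((Nat.gcd_dvd_left _ _).trans ⟨gk i.1, by rw [mul_comm]; exact (jk_mul i.1).symm⟩)
          ((Nat.gcd_dvd_right _ _).trans ⟨gk j.1, by rw [mul_comm]; exact (jk_mul j.1).symm⟩)
      exact_mod_cast Nat.le_of_dvd (Nat.gcd_pos_of_pos_left _ (by have := hk i hi; omega)) hd
    rw [h5]
    have h10 : 0 ≤ h + δ := by positivity
    have h11 : (0 : ℝ) ≤ Nat.gcd (jk i.1) (jk j.1) := by positivity
    nlinarith [mul_le_mul h6 h9 h11 h10]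
  have hmain := l1_bound (KK n) (fun i => δ / (i.1 : ℝ)) (tt δ h) (fun i _ => by positivity)
    (SS δ h) (measurableSet_SS δ h) ht (fun i j => (h + δ) * Nat.gcd i.1 j.1) he hlam
  refine hmain.trans ?_
  have hsum : ∑ i ∈ KK n, ∑ j ∈ KK n, δ / (i.1 : ℝ) * (δ / (j.1 : ℝ)) * ((h + δ) * Nat.gcd i.1 j.1)
      ≤ 900 * δ ^ 2 * (h + δ) * HH n ^ 3 := by
    unfold KK
    simp only [Finset.sum_sigma, Finset.sum_const, nsmul_eq_mul]
    have hc : ∀ k, ((UU k).card : ℝ) ≤ 30 := by
      intro k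
      rw [card_UU]
      exact_mod_cast (Nat.totient_le _).trans (Nat.gcd_le_right k (by norm_num))
    calc ∑ k ∈ Finset.Icc 1 n, ((UU k).card : ℝ) * ∑ l ∈ Finset.Icc 1 n, ((UU l).card : ℝ) *
          (δ / (k : ℝ) * (δ / (l : ℝ)) * ((h + δ) * Nat.gcd k l))
        ≤ ∑ k ∈ Finset.Icc 1 n, (30 : ℝ) * ∑ l ∈ Finset.Icc 1 n, (30 : ℝ) *
          (δ / (k : ℝ) * (δ / (l : ℝ)) * ((h + δ) * Nat.gcd k l)) := by
          refine Finset.sum_le_sum fun k _ => ?_
          refine mul_le_mul (hc k) ?_ (Finset.sum_nonneg fun l _ => by positivity) (by norm_num)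
          refine Finset.sum_le_sum fun l _ => ?_
          exact mul_le_mul_of_nonneg_right (hc l) (by positivity)
      _ = 900 * δ ^ 2 * (h + δ) * ∑ k ∈ Finset.Icc 1 n, ∑ l ∈ Finset.Icc 1 n,
            (Nat.gcd k l : ℝ) * (1 / k) * (1 / l) := by
          rw [Finset.mul_sum]
          refine Finset.sum_congr rfl fun k _ => ?_
          rw [Finset.mul_sum, Finset.mul_sum]
          refine Finset.sum_congr rfl fun l _ => ?_
          ring
      _ ≤ _ := by
          refine mul_le_mul_of_nonneg_left (gcd_sum n) (by positivity)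
  have : (∑ i ∈ KK n, ∑ j ∈ KK n, δ / (i.1 : ℝ) * (δ / (j.1 : ℝ)) * ((h + δ) * Nat.gcd i.1 j.1)) /
      (2 * lam) ≤ 450 * δ ^ 2 * (h + δ) * HH n ^ 3 / lam := by
    rw [div_le_div_iff₀ (by positivity) hlam]
    nlinarith
  linarith

theorem mm_le (n : ℕ) (δ h : ℝ) :
    mm n δ h ≤ δ * h * ∑ k ∈ Finset.Icc 1 n, wk k + δ ^ 2 * HH n := by
  unfold mm KK
  simp only [Finset.sum_sigma]
  have h1 : ∀ k ∈ Finset.Icc 1 n, ∑ b ∈ UU k, δ / (k : ℝ) * tt δ h ⟨k, b⟩ ≤
      δ * h * wk k + δ ^ 2 * (1 / k) := by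
    intro k hk
    rw [Finset.mem_Icc] at hk
    have hk' : (0 : ℝ) < k := by exact_mod_cast (show 0 < k by omega)
    have hg : (0 : ℝ) < gk k := by exact_mod_cast gk_pos k
    have hj : (jk k : ℝ) = k / gk k := by
      rw [eq_div_iff hg.ne']; exact_mod_cast (by rw [mul_comm]; exact jk_mul k)
    simp only [tt]
    rw [Finset.sum_const, card_UU, nsmul_eq_mul, hj]
    have h2 : (Nat.totient (gk k) : ℝ) * (δ / k * (k / gk k * h + δ / gk k)) =
        δ * h * wk k + δ ^ 2 * (1 / k) * wk k := by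
      unfold wk; field_simp
    rw [h2]
    have h3 := wk_le_one k
    have h4 : 0 ≤ δ ^ 2 * (1 / (k : ℝ)) := by positivity
    nlinarith
  refine (Finset.sum_le_sum h1).trans (le_of_eq ?_)
  rw [Finset.sum_add_distrib, ← Finset.mul_sum, ← Finset.mul_sum]
  rfl

end Pool.Agent.Q246.RO
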