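import Pool.Agent.Q246.RO.Num

open MeasureTheory Set
open scoped ENNReal

namespace Pool.Agent.Q246.RO

theorem log_small : ∃ N₀ : ℕ, 3 ≤ N₀ ∧ ∀ N : ℕ, N₀ ≤ N →
    3 / 2 * (1 + Real.log N) ^ 3 ≤ 1 / 10 ^ 12 * N := by
  have h := (Real.isLittleO_pow_log_id_atTop (n := 3)).bound (show (0 : ℝ) < 1 / 10 ^ 14 by norm_num)
  have h2 : ∀ᶠ N : ℕ in Filter.atTop, ‖Real.log (N : ℝ) ^ 3‖ ≤ 1 / 10 ^ 14 * ‖id (N : ℝ)‖ :=
    tendsto_natCast_atTop_atTop.eventually h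
  obtain ⟨N₁, hN₁⟩ := Filter.eventually_atTop.1 h2
  refine ⟨max N₁ 3, le_max_right _ _, fun N hN => ?_⟩
  have h3 := hN₁ N (le_trans (le_max_left _ _) hN)
  have hN3 : 3 ≤ N := le_trans (le_max_right _ _) hN
  have hN3' : (3 : ℝ) ≤ N := by exact_mod_cast hN3
  have hlog : 1 ≤ Real.log N := by
    rw [Real.le_log_iff_exp_le (by linarith)]
    have := Real.exp_one_lt_d9
    linarith
  simp only [id, Real.norm_eq_abs] at h3
  rw [abs_of_nonneg (by positivity), abs_of_nonneg (by positivity)] at h3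
  have h4 : (1 + Real.log N) ^ 3 ≤ (2 * Real.log N) ^ 3 := by gcongr; linarith
  have h5 : (2 * Real.log N) ^ 3 = 8 * Real.log N ^ 3 := by ring
  rw [h5] at h4
  norm_num at h3 ⊢
  linarith

theorem eventually_lower : ∃ δ₀ : ℝ, 0 < δ₀ ∧ δ₀ ≤ 1 ∧ ∀ δ : ℝ, 0 < δ → δ < δ₀ →
    0.505 ≤ ((volume : Measure TT).prod (volume : Measure TT)).real (EE δ) := by
  obtain ⟨N₀, hN₀3, hN₀⟩ := log_small
  have hN₀' : (3 : ℝ) ≤ N₀ := by exact_mod_cast hN₀3
  refine ⟨1 / (1000 * (N₀ + 1)), by positivity, ?_, fun δ hδ hδ' => ?_⟩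
  · rw [div_le_one (by positivity)]; linarith
  · have hδN : δ * (1000 * (N₀ + 1)) < 1 := by
      rwa [lt_div_iff₀ (by positivity)] at hδ'
    have hδs : δ ≤ 1 / 1000 := by
      rw [le_div_iff₀ (by norm_num)]; nlinarith
    set N : ℕ := ⌊(3 / 2) / δ⌋₊ with hNdef
    have h1 : (N : ℝ) ≤ (3 / 2) / δ := Nat.floor_le (by positivity)
    have h2 : (3 / 2) / δ < N + 1 := Nat.lt_floor_add_one _
    have h3 : (N : ℝ) * δ ≤ 3 / 2 := by rwa [le_div_iff₀ hδ] at h1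
    have h4 : 3 / 2 - δ ≤ (N : ℝ) * δ := by
      rw [div_lt_iff₀ hδ] at h2; linarith
    have h5 : N₀ ≤ N := by
      rw [hNdef]
      refine Nat.le_floor ?_
      rw [le_div_iff₀ hδ]; nlinarith
    have h6 := hN₀ N h5
    have hN3 : (3 : ℝ) ≤ N := le_trans hN₀' (by exact_mod_cast h5)
    have hH := HH_le_log N
    have hH0 := HH_nonneg N
    have h7 : δ * HH N ^ 3 ≤ 1 / 10 ^ 12 := by
      have h8 : HH N ^ 3 ≤ (1 + Real.log N) ^ 3 := by gcongr
      have h9 : δ ≤ 3 / 2 / N := by rw [le_div_iff₀ (by linarith)]; linarith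
      calc δ * HH N ^ 3 ≤ 3 / 2 / N * (1 + Real.log N) ^ 3 := by gcongr
        _ = 3 / 2 * (1 + Real.log N) ^ 3 / N := by ring
        _ ≤ 1 / 10 ^ 12 * N / N := by gcongr
        _ = _ := by field_simp
    exact total hδ rfl h3 h4 hδs h7 le_rfl

/-- The representative of `x` in `[0, 2π)` modulo `2π`. -/
noncomputable def md (x : ℝ) : ℝ := toIcoMod Real.two_pi_pos 0 x

theorem md_lt_iff {δ : ℝ} (hδ1 : δ ≤ 1) (t : ℝ) :
    md (2 * Real.pi * t) < 2 * Real.pi * δ ↔ ((t : ℝ) : TT) ∈ ar 0 δ := by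
  have hpi := Real.pi_pos
  constructor
  · intro h
    have h1 := toIcoMod_mem_Ico Real.two_pi_pos 0 (2 * Real.pi * t)
    have h2 := toIcoMod_add_toIcoDiv_zsmul Real.two_pi_pos 0 (2 * Real.pi * t)
    set m := toIcoDiv Real.two_pi_pos 0 (2 * Real.pi * t)
    change toIcoMod Real.two_pi_pos 0 (2 * Real.pi * t) < _ at h
    set r := toIcoMod Real.two_pi_pos 0 (2 * Real.pi * t)
    refine ⟨r / (2 * Real.pi), ⟨by have := h1.1; positivity, ?_⟩, ?_⟩
    · rw [zero_add, div_lt_iff₀ (by positivity)]; linarith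
    · change ((_ : ℝ) : TT) = _
      rw [coe_eq_iff]
      refine ⟨-m, ?_⟩
      rw [zsmul_eq_mul] at h2
      push_cast
      field_simp
      linarith
  · rintro ⟨s, ⟨hs1, hs2⟩, hs3⟩
    obtain ⟨m, hm⟩ := (coe_eq_iff _ _).1 hs3
    have h1 : md (2 * Real.pi * t) = 2 * Real.pi * s := by
      unfold md
      rw [toIcoMod_eq_iff]
      refine ⟨⟨by positivity, ?_⟩, -m, ?_⟩
      · rw [zero_add] at hs2 ⊢
        nlinarith
      · rw [zsmul_eq_mul]
        have : t = s - m := by linarith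
        rw [this]; push_cast; ring
    rw [h1]
    rw [zero_add] at hs2
    exact mul_lt_mul_of_pos_left hs2 (by positivity)

end Pool.Agent.Q246.RO
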