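import Pool.Agent.Q246.RO.Conc

open MeasureTheory Set
open scoped ENNReal

namespace Pool.Agent.Q246.RO

/-- The pieces. -/
def FF (δ h : ℝ) (n i : ℕ) : Set (TT × TT) :=
  {p | n • p.1 - p.2 ∈ ar (i * h) h ∧ p.1 ∉ Hit (n - 1) (i * h - δ) ((i + 1) * h) ∧
    p.1 - p.2 ∉ Hit n 0 δ}

theorem measurableSet_FF (δ h : ℝ) (n i : ℕ) : MeasurableSet (FF δ h n i) := by
  have h1 : Measurable (fun p : TT × TT => n • p.1 - p.2) :=
    (((continuous_nsmul n).comp continuous_fst).sub continuous_snd).measurable
  have h2 : Measurable (fun p : TT × TT => p.1 - p.2) :=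
    (continuous_fst.sub continuous_snd).measurable
  exact (h1 (measurableSet_ar _ _)).inter ((measurable_fst (measurableSet_Hit _ _ _)).compl.inter
    (h2 (measurableSet_Hit _ _ _)).compl)

theorem WW_nonneg (n : ℕ) {δ : ℝ} (hδ : 0 ≤ δ) (h : ℝ) (x : TT) : 0 ≤ WW n δ h x :=
  Finset.sum_nonneg fun _ _ => mul_nonneg (by positivity)
    (Set.indicator_nonneg (fun _ _ => zero_le_one) _)

theorem integrable_WW (n : ℕ) (δ h : ℝ) : Integrable (WW n δ h) volume :=
  integrable_finsetSum _ fun i _ => (integrable_ind (measurableSet_SS δ h i)).const_mul _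

theorem fibre (n i : ℕ) (hn : 2 ≤ n) {δ h : ℝ} (hδ : 0 ≤ δ) (hh : 0 ≤ h) (hle : n * h + δ ≤ 1)
    (a : TT) (ha : a ∉ Hit (n - 1) (i * h - δ) ((i + 1) * h)) :
    ENNReal.ofReal (h - WW n δ h (((i * h : ℝ) : TT) - (n - 1) • a)) ≤
      (volume : Measure TT) (Prod.mk a ⁻¹' FF δ h n i) := by
  set x : TT := ((i * h : ℝ) : TT) - (n - 1) • a with hx
  have hn1 : (n : ℝ) ≥ 1 := by exact_mod_cast (show 1 ≤ n by omega)
  have hh1 : h ≤ 1 := by nlinarith
  -- change variables b = n a - u
  have h1 : (volume : Measure TT) (Prod.mk a ⁻¹' FF δ h n i) =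
      volume {u : TT | u ∈ ar (i * h) h ∧ u - (n - 1) • a ∉ Hit n 0 δ} := by
    have hm : MeasurableSet (Prod.mk a ⁻¹' FF δ h n i) :=
      measurable_prodMk_left (measurableSet_FF δ h n i)
    have hmp := (Measure.measurePreserving_sub_left (volume : Measure TT) (n • a)).measure_preimage
      hm.nullMeasurableSet
    rw [← hmp]
    congr 1
    ext u
    simp only [FF, mem_preimage, mem_ofPred_eq, sub_sub_cancel]
    have e1 : a - (n • a - u) = u - (n - 1) • a := by
      have : n • a = (n - 1) • a + a := by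
        rw [← succ_nsmul]; congr 1; omega
      rw [this]; abel
    rw [e1]
    tauto
  rw [h1]
  set A : Set TT := {u : TT | u ∈ ar (i * h) h ∧ u - (n - 1) • a ∉ Hit n 0 δ} with hA
  set B : Set TT := {u : TT | u ∈ ar (i * h) h ∧ u - (n - 1) • a ∈ Hit n 0 δ} with hB
  have h2 : volume (ar (i * h) h) ≤ volume A + volume B := by
    refine (measure_mono ?_).trans (measure_union_le A B)
    intro u hu
    by_cases hc : u - (n - 1) • a ∈ Hit n 0 δ
    · exact Or.inr ⟨hu, hc⟩
    · exact Or.inl ⟨hu, hc⟩
  have h3 : volume B ≤ ENNReal.ofReal (WW n δ h x) := by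
    have hBm : MeasurableSet B := by
      refine (measurableSet_ar _ _).inter ?_
      exact (measurable_id.sub_const _) (measurableSet_Hit n 0 δ)
    have h4 : volume B = volume ((fun u => ((i * h : ℝ) : TT) + u) ⁻¹' B) := by
      rw [measure_preimage_add]
    rw [h4]
    refine (measure_mono ?_).trans (window n hδ hh hle x)
    rintro u ⟨⟨s, ⟨hs1, hs2⟩, hs3⟩, hu2⟩
    refine ⟨⟨s - i * h, ⟨by linarith, by linarith⟩, ?_⟩, ?_⟩
    · change (((s - i * h : ℝ)) : TT) = u
      rw [AddCircle.coe_sub]
      have : ((s : ℝ) : TT) = ((i * h : ℝ) : TT) + u := hs3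
      rw [this]; abel
    · have e2 : x + u = ((i * h : ℝ) : TT) + u - (n - 1) • a := by rw [hx]; abel
      rw [e2]; exact hu2
  have h5 : ENNReal.ofReal h ≤ volume A + ENNReal.ofReal (WW n δ h x) :=
    (vol_ar_ge _ hh1).trans (h2.trans (by gcongr))
  rw [ENNReal.ofReal_sub _ (WW_nonneg n hδ h x)]
  exact tsub_le_iff_right.2 h5

theorem integral_comp_mp {f : TT → TT} (hf : MeasurePreserving f volume volume) {g : TT → ℝ}
    (hg : Integrable g volume) : ∫ a, g (f a) = ∫ x, g x := by
  have h1 := integral_map (μ := (volume : Measure TT)) (φ := f) hf.measurable.aemeasurable (f := g)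
    (by rw [hf.map_eq]; exact hg.aestronglyMeasurable)
  rw [hf.map_eq] at h1
  exact h1.symm

theorem integral_le_prod {F : Set (TT × TT)} (hF : MeasurableSet F) {φ : TT → ℝ}
    (hφ : Integrable φ volume)
    (hle : ∀ a, ENNReal.ofReal (φ a) ≤ (volume : Measure TT) (Prod.mk a ⁻¹' F)) :
    ∫ a, φ a ≤ ((volume : Measure TT).prod (volume : Measure TT)).real F := by
  have h2 : ((volume : Measure TT).prod (volume : Measure TT)) F =
      ∫⁻ a, (volume : Measure TT) (Prod.mk a ⁻¹' F) := Measure.prod_apply hF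
  have h1 : ENNReal.ofReal (∫ a, φ a) ≤ ((volume : Measure TT).prod (volume : Measure TT)) F := by
    rw [h2]
    calc ENNReal.ofReal (∫ a, φ a) ≤ ∫⁻ a, ENNReal.ofReal (φ a) := by
          rw [integral_eq_lintegral_pos_part_sub_lintegral_neg_part hφ]
          refine (ENNReal.ofReal_le_ofReal (sub_le_self _ ENNReal.toReal_nonneg)).trans ?_
          exact ENNReal.ofReal_toReal_le
      _ ≤ _ := lintegral_mono hle
  have h4 := ENNReal.toReal_mono (measure_ne_top _ _) h1
  refine le_trans ?_ h4
  rw [ENNReal.toReal_ofReal']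
  exact le_max_left _ _

attribute [local irreducible] WW mm in
theorem FF_lower (n i : ℕ) (hn : 2 ≤ n) {δ h E : ℝ} (hδ : 0 ≤ δ) (hh : 0 ≤ h) (hle : n * h + δ ≤ 1)
    (hi : (i : ℝ) * h ≤ δ) (hE : mm n δ h ≤ E) (hEh : E ≤ h) :
    (h - E) * (1 - (δ + h) * ∑ k ∈ Finset.Icc 1 (n - 1), wk k) - ∫ x, |WW n δ h x - mm n δ h| ≤
      ((volume : Measure TT).prod (volume : Measure TT)).real (FF δ h n i) := by
  set G : Set TT := (Hit (n - 1) (i * h - δ) ((i + 1) * h))ᶜ with hG
  have hGm : MeasurableSet G := (measurableSet_Hit _ _ _).compl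
  set xx : TT → TT := fun a => ((i * h : ℝ) : TT) - (n - 1) • a with hxx
  have hmpx : MeasurePreserving xx volume volume :=
    (Measure.measurePreserving_sub_left (volume : Measure TT) _).comp (mp_nsmul (show 0 < n - 1 by omega))
  have hWx : Integrable (fun a => WW n δ h (xx a)) volume :=
    (hmpx.integrable_comp (integrable_WW n δ h).aestronglyMeasurable).2 (integrable_WW n δ h)
  have hφ0 : Integrable (fun a => h - WW n δ h (xx a)) volume := (integrable_const h).sub hWx
  have hφi : Integrable (G.indicator fun a => h - WW n δ h (xx a)) volume := hφ0.indicator hGm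
  have h3 : ∫ a, G.indicator (fun a => h - WW n δ h (xx a)) a ≤
      ((volume : Measure TT).prod (volume : Measure TT)).real (FF δ h n i) := by
    refine integral_le_prod (measurableSet_FF δ h n i) hφi fun a => ?_
    by_cases ha : a ∈ G
    · rw [Set.indicator_of_mem ha]
      exact fibre n i hn hδ hh hle a ha
    · rw [Set.indicator_of_notMem ha]; simp
  refine le_trans ?_ h3
  have h5 : ∫ x, |WW n δ h x - mm n δ h| = ∫ a, |WW n δ h (xx a) - mm n δ h| :=
    (integral_comp_mp hmpx (g := fun x => |WW n δ h x - mm n δ h|)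
      ((integrable_WW n δ h).sub (integrable_const _)).abs).symm
  have h6 : ∫ a, (G.indicator (fun _ => h - E) a - |WW n δ h (xx a) - mm n δ h|) ≤
      ∫ a, G.indicator (fun a => h - WW n δ h (xx a)) a := by
    refine integral_mono (((integrable_const (h - E)).indicator hGm).sub
      ((hWx.sub (integrable_const _)).abs)) hφi fun a => ?_
    by_cases ha : a ∈ G
    · simp only [Set.indicator_of_mem ha]
      have := le_abs_self (WW n δ h (xx a) - mm n δ h)
      linarith
    · simp only [Set.indicator_of_notMem ha]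
      have := abs_nonneg (WW n δ h (xx a) - mm n δ h)
      linarith
  refine le_trans ?_ h6
  have hAbs : Integrable (fun a => |WW n δ h (xx a) - mm n δ h|) volume :=
    (hWx.sub (integrable_const _)).abs
  have hI : ∫ a, (G.indicator (fun _ => h - E) a - |WW n δ h (xx a) - mm n δ h|) =
      (∫ a, G.indicator (fun _ => h - E) a) - ∫ a, |WW n δ h (xx a) - mm n δ h| :=
    integral_sub ((integrable_const (h - E)).indicator hGm) hAbs
  rw [hI, integral_indicator_const _ hGm, h5, smul_eq_mul]
  have h7 : 1 - (δ + h) * ∑ k ∈ Finset.Icc 1 (n - 1), wk k ≤ (volume : Measure TT).real G := by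
    have h8 : (volume : Measure TT).real G = 1 - (volume : Measure TT).real
        (Hit (n - 1) (i * h - δ) ((i + 1) * h)) := by
      rw [hG, probReal_compl_eq_one_sub (measurableSet_Hit _ _ _)]
    have h9 := vol_Hit_le (n - 1) (lo := i * h - δ) (hi := (i + 1) * h) (by linarith) (by positivity)
    have h10 : (volume : Measure TT).real (Hit (n - 1) (i * h - δ) ((i + 1) * h)) ≤
        (δ + h) * ∑ k ∈ Finset.Icc 1 (n - 1), wk k := by
      have h11 := ENNReal.toReal_mono ENNReal.ofReal_ne_top h9
      have h12 : ((i + 1) * h - (i * h - δ)) = δ + h := by ring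
      rw [h12, ENNReal.toReal_ofReal (mul_nonneg (by positivity)
        (Finset.sum_nonneg fun k _ => wk_nonneg k))] at h11
      exact h11
    rw [h8]; linarith
  have h13 : 0 ≤ h - E := by linarith
  have h14 := mul_le_mul_of_nonneg_left h7 h13
  rw [mul_comm ((volume : Measure TT).real G)]
  exact sub_le_sub_right h14 _

end Pool.Agent.Q246.RO
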