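import Pool.Agent.Q246.RO.Tot

open MeasureTheory Set
open scoped ENNReal

namespace Pool.Agent.Q246.RO

theorem HH_mono {n m : ℕ} (h : n ≤ m) : HH n ≤ HH m := by
  unfold HH
  refine Finset.sum_le_sum_of_subset_of_nonneg (Finset.Icc_subset_Icc le_rfl h) fun _ _ _ => by positivity

theorem one_le_HH {n : ℕ} (h : 1 ≤ n) : 1 ≤ HH n := by
  have : HH 1 ≤ HH n := HH_mono h
  simpa [HH] using this

theorem HH_le_log (n : ℕ) : HH n ≤ 1 + Real.log n := by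
  have h1 := harmonic_le_one_add_log n
  rw [harmonic_eq_sum_Icc] at h1
  unfold HH
  push_cast at h1
  simpa [one_div] using h1

theorem polysum (a b c : ℝ) (N : ℕ) :
    ∑ n ∈ Finset.Icc 1 N, (a + b * n + c * (n : ℝ) ^ 2) =
      a * N + b * (N * (N + 1) / 2) + c * (N * (N + 1) * (2 * N + 1) / 6) := by
  induction N with
  | zero => simp
  | succ N ih =>
    rw [Finset.sum_Icc_succ_top (by omega), ih]
    push_cast; ring

attribute [local irreducible] WW mm FF in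
theorem per_n {δ h ρ : ℝ} {N n : ℕ} (hδ : 0 < δ) (hh : h = δ / 32) (hN : (N : ℝ) * δ ≤ 3 / 2)
    (hδs : δ ≤ 1 / 1000) (hρ : δ * HH N ^ 3 ≤ ρ) (hρs : ρ ≤ 1 / 10 ^ 12) (hn2 : 2 ≤ n) (hnN : n ≤ N) :
    δ * (1 - 1.3 * (n * δ) + 0.4224 * (n * δ) ^ 2 - 0.0016) ≤
      ∑ i ∈ Finset.range 32, ((volume : Measure TT).prod (volume : Measure TT)).real (FF δ h n i) := by
  have hh0 : 0 < h := by rw [hh]; positivity
  have hn' : (n : ℝ) ≤ N := by exact_mod_cast hnN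
  have hn0 : (2 : ℝ) ≤ n := by exact_mod_cast hn2
  have hs : (n : ℝ) * δ ≤ 3 / 2 := le_trans (by gcongr) hN
  have hs0 : 0 ≤ (n : ℝ) * δ := by positivity
  have hH1 : 1 ≤ HH N := one_le_HH (by omega)
  have hHn : HH n ≤ HH N := HH_mono hnN
  have hHn0 := HH_nonneg n
  set H := HH N with hHdef
  have hH3 : 1 ≤ H ^ 3 := one_le_pow₀ hH1
  have hHle : H ≤ H ^ 3 := by nlinarith [mul_nonneg (by linarith : 0 ≤ H) (by nlinarith : 0 ≤ H ^ 2 - 1)]
  have hδρ : δ ≤ ρ := by nlinarith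
  have hδH : δ * H ≤ ρ := by nlinarith
  have hρ0 : 0 < ρ := by linarith
  set η : ℝ := 12 * δ + 32 * (δ * H) with hη
  have hη0 : 0 ≤ η := by positivity
  have hη1 : η ≤ 44 * ρ := by linarith
  set E : ℝ := h * (0.64 * (n * δ) + η) with hE
  have hmE : mm n δ h ≤ E := by
    have h1 := mm_le n δ h
    have h2 := wk_sum n
    have h3 : δ * h * ∑ k ∈ Finset.Icc 1 n, wk k ≤ δ * h * (0.64 * n + 12) := by gcongr
    have h4 : δ ^ 2 * HH n ≤ δ ^ 2 * H := by gcongr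
    have h5 : δ ^ 2 * H = h * (32 * (δ * H)) := by rw [hh]; ring
    rw [hE, hη]
    nlinarith
  have hEh : E ≤ h := by
    rw [hE]
    have : 0.64 * (n * δ) + η ≤ 1 := by linarith
    nlinarith
  have hle : n * h + δ ≤ 1 := by rw [hh]; nlinarith
  set Φ := ∑ k ∈ Finset.Icc 1 (n - 1), wk k with hΦ
  have hΦ1 : Φ ≤ 0.64 * n + 12 := by
    have h1 := wk_sum (n - 1)
    have h2 : ((n - 1 : ℕ) : ℝ) ≤ n := by exact_mod_cast Nat.sub_le n 1
    linarith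
  have hI := conc n (δ := δ) (h := h) (lam := δ / 12000) hδ.le hh0.le hle (by positivity)
  set I := ∫ x, |WW n δ h x - mm n δ h| with hIdef
  have hI2 : I ≤ δ * (5568750 * ρ + 1 / 24000) := by
    refine hI.trans ?_
    have h1 : HH n ^ 3 ≤ H ^ 3 := by gcongr
    have h2 : 450 * δ ^ 2 * (h + δ) * HH n ^ 3 / (δ / 12000) + δ / 12000 / 2 =
        δ * (5568750 * (δ * HH n ^ 3) + 1 / 24000) := by
      rw [hh]; field_simp; ring
    rw [h2]
    have h3 : δ * HH n ^ 3 ≤ ρ := le_trans (by gcongr) hρ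
    gcongr
  have hFF : ∀ i ∈ Finset.range 32, (h - E) * (1 - (δ + h) * Φ) - I ≤
      ((volume : Measure TT).prod (volume : Measure TT)).real (FF δ h n i) := by
    intro i hi
    rw [Finset.mem_range] at hi
    have hi' : (i : ℝ) ≤ 32 := by exact_mod_cast hi.le
    exact FF_lower n i hn2 hδ.le hh0.le hle (by rw [hh]; nlinarith) hmE hEh
  refine le_trans ?_ (Finset.sum_le_sum hFF)
  rw [Finset.sum_const, Finset.card_range, nsmul_eq_mul]
  push_cast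
  -- lower bound of the product
  have hA : 32 * (h - E) = δ * (1 - 0.64 * (n * δ) - η) := by rw [hE, hh]; ring
  have hB : 1 - 0.66 * (n * δ) - 13 * ρ ≤ 1 - (δ + h) * Φ := by
    have h1 : (δ + h) * Φ ≤ (δ + h) * (0.64 * n + 12) := by gcongr
    have h2 : (δ + h) * (0.64 * n + 12) = 0.66 * (n * δ) + 12.375 * δ := by rw [hh]; ring
    nlinarith
  have hx0 : 0 ≤ 1 - 0.64 * (n * δ) - η := by linarith
  have h1 : δ * (1 - 0.64 * (n * δ) - η) * (1 - 0.66 * (n * δ) - 13 * ρ) ≤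
      32 * ((h - E) * (1 - (δ + h) * Φ)) := by
    calc δ * (1 - 0.64 * (n * δ) - η) * (1 - 0.66 * (n * δ) - 13 * ρ)
        ≤ δ * (1 - 0.64 * (n * δ) - η) * (1 - (δ + h) * Φ) :=
          mul_le_mul_of_nonneg_left hB (by positivity)
      _ = 32 * (h - E) * (1 - (δ + h) * Φ) := by rw [hA]
      _ = _ := by ring
  have h2 : 1 - 1.3 * (n * δ) + 0.4224 * (n * δ) ^ 2 - 57 * ρ ≤
      (1 - 0.64 * (n * δ) - η) * (1 - 0.66 * (n * δ) - 13 * ρ) := by
    have e1 : (1 - 0.64 * (n * δ) - η) * (1 - 0.66 * (n * δ) - 13 * ρ) =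
        1 - 1.3 * (n * δ) + 0.4224 * (n * δ) ^ 2 - η * (1 - 0.66 * (n * δ)) -
          13 * ρ * (1 - 0.64 * (n * δ)) + 13 * (η * ρ) := by ring
    rw [e1]
    have e2 : η * (1 - 0.66 * (n * δ)) ≤ η := by nlinarith
    have e3 : 13 * ρ * (1 - 0.64 * (n * δ)) ≤ 13 * ρ := by nlinarith
    have e4 : 0 ≤ η * ρ := by positivity
    linarith
  have h3 : δ * (1 - 1.3 * (n * δ) + 0.4224 * (n * δ) ^ 2 - 57 * ρ) ≤
      δ * ((1 - 0.64 * (n * δ) - η) * (1 - 0.66 * (n * δ) - 13 * ρ)) :=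
    mul_le_mul_of_nonneg_left h2 hδ.le
  have h4 : 32 * I ≤ δ * (178200000 * ρ + 1 / 750) := by
    calc 32 * I ≤ 32 * (δ * (5568750 * ρ + 1 / 24000)) := by gcongr
      _ = _ := by ring
  have h5 : δ * (1 - 1.3 * (n * δ) + 0.4224 * (n * δ) ^ 2 - 0.0016) ≤
      δ * (1 - 1.3 * (n * δ) + 0.4224 * (n * δ) ^ 2 - 57 * ρ) - δ * (178200000 * ρ + 1 / 750) := by
    rw [← mul_sub]
    refine mul_le_mul_of_nonneg_left ?_ hδ.le
    norm_num at hρs ⊢
    linarith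
  have h6 : 32 * ((h - E) * (1 - (δ + h) * Φ) - I) = 32 * ((h - E) * (1 - (δ + h) * Φ)) - 32 * I := by
    ring
  rw [h6]
  rw [mul_assoc] at h1
  linarith

theorem total {δ h ρ : ℝ} {N : ℕ} (hδ : 0 < δ) (hh : h = δ / 32) (hN : (N : ℝ) * δ ≤ 3 / 2)
    (hN' : 3 / 2 - δ ≤ (N : ℝ) * δ)
    (hδs : δ ≤ 1 / 1000) (hρ : δ * HH N ^ 3 ≤ ρ) (hρs : ρ ≤ 1 / 10 ^ 12) :
    0.505 ≤ ((volume : Measure TT).prod (volume : Measure TT)).real (EE δ) := by
  refine le_trans ?_ (EE_lower (N := N) (L := 32) (h := h) (by rw [hh]; positivity)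
    (by rw [hh]; push_cast; ring) (by linarith))
  have h1 : ∀ n ∈ Finset.Icc 2 N, δ * (1 - 1.3 * (n * δ) + 0.4224 * (n * δ) ^ 2 - 0.0016) ≤
      ∑ i ∈ Finset.range 32, ((volume : Measure TT).prod (volume : Measure TT)).real (FF δ h n i) := by
    intro n hn
    rw [Finset.mem_Icc] at hn
    exact per_n hδ hh hN hδs hρ hρs hn.1 hn.2
  refine le_trans ?_ (Finset.sum_le_sum h1)
  have hN1 : 1 ≤ N := by
    rcases Nat.eq_zero_or_pos N with h | h
    · rw [h] at hN'; norm_num at hN'; linarith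
    · exact h
  have h2 : ∑ n ∈ Finset.Icc 1 N, δ * (1 - 1.3 * (n * δ) + 0.4224 * (n * δ) ^ 2 - 0.0016) =
      δ * (1 - 1.3 * ((1 : ℕ) * δ) + 0.4224 * ((1 : ℕ) * δ) ^ 2 - 0.0016) +
      ∑ n ∈ Finset.Icc 2 N, δ * (1 - 1.3 * (n * δ) + 0.4224 * (n * δ) ^ 2 - 0.0016) := by
    have hins : Finset.Icc 1 N = insert 1 (Finset.Icc 2 N) := by
      ext x; simp only [Finset.mem_Icc, Finset.mem_insert]; omega
    rw [hins, Finset.sum_insert (by simp)]
  have h3 : ∑ n ∈ Finset.Icc 1 N, δ * (1 - 1.3 * (n * δ) + 0.4224 * (n * δ) ^ 2 - 0.0016) =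
      ∑ n ∈ Finset.Icc 1 N, (δ * 0.9984 + (-1.3 * δ ^ 2) * n + (0.4224 * δ ^ 3) * (n : ℝ) ^ 2) :=
    Finset.sum_congr rfl fun n _ => by ring
  rw [polysum] at h3
  have h4 : δ * 0.9984 * N + -1.3 * δ ^ 2 * (N * (N + 1) / 2) +
      0.4224 * δ ^ 3 * (N * (N + 1) * (2 * N + 1) / 6) =
      0.9984 * (N * δ) - 0.65 * (N * δ) * (N * δ + δ) +
        0.0704 * (N * δ) * (N * δ + δ) * (2 * (N * δ) + δ) := by ring
  rw [h4] at h3
  rw [h3] at h2
  push_cast at h2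
  set t : ℝ := (N : ℝ) * δ with ht
  have ht1 : 1.499 ≤ t := by norm_num at hδs ⊢; linarith
  have ht0 : 0 ≤ t := by linarith
  have e1 : t * (t + δ) ≤ 2.2515 := by
    have : t + δ ≤ 1.501 := by norm_num at hδs ⊢; linarith
    nlinarith
  have e2 : 2.247001 ≤ t * (t + δ) := by nlinarith
  have e3 : 6.7365 ≤ t * (t + δ) * (2 * t + δ) := by
    have : 2.998 ≤ 2 * t + δ := by linarith
    nlinarith
  have e4 : δ * (1 - 1.3 * (1 * δ) + 0.4224 * (1 * δ) ^ 2 - 0.0016) ≤ δ := by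
    have : 1 - 1.3 * (1 * δ) + 0.4224 * (1 * δ) ^ 2 - 0.0016 ≤ 1 := by nlinarith
    nlinarith
  have e5 : δ ≤ 0.001 := by norm_num at hδs ⊢; linarith
  nlinarith

end Pool.Agent.Q246.RO
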