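import Mathlib

open Finset

namespace Pool.Agent.Q246.RO

/-- Harmonic sum. -/
noncomputable def HH (n : ℕ) : ℝ := ∑ k ∈ Icc 1 n, (1 : ℝ) / k

theorem HH_nonneg (n : ℕ) : 0 ≤ HH n := Finset.sum_nonneg fun _ _ => by positivity

theorem sum_dvd (n e : ℕ) (he : 0 < e) :
    ∑ k ∈ Icc 1 n, (if e ∣ k then (1 : ℝ) / k else 0) ≤ HH n / e := by
  classical
  rw [← Finset.sum_filter]
  have he' : (0 : ℝ) < e := by exact_mod_cast he
  have hsub : (Icc 1 n).filter (fun k => e ∣ k) ⊆ (Icc 1 n).image (fun m => e * m) := by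
    intro k hk
    rw [mem_filter, mem_Icc] at hk
    obtain ⟨⟨h1, h2⟩, m, rfl⟩ := hk
    rw [mem_image]
    refine ⟨m, ?_, rfl⟩
    rw [mem_Icc]
    constructor
    · rcases Nat.eq_zero_or_pos m with h | h
      · subst h; omega
      · exact h
    · nlinarith [Nat.mul_le_mul_right m he]
  calc ∑ k ∈ (Icc 1 n).filter (fun k => e ∣ k), (1 : ℝ) / k
      ≤ ∑ k ∈ (Icc 1 n).image (fun m => e * m), (1 : ℝ) / k :=
        Finset.sum_le_sum_of_subset_of_nonneg hsub fun _ _ _ => by positivity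
    _ = ∑ m ∈ Icc 1 n, (1 : ℝ) / ((e * m : ℕ) : ℝ) := by
        rw [Finset.sum_image]
        intro a _ b _ hab
        exact Nat.eq_of_mul_eq_mul_left he hab
    _ = HH n / e := by
        unfold HH
        rw [Finset.sum_div]
        refine Finset.sum_congr rfl fun m _ => ?_
        push_cast
        rw [div_div, mul_comm]

theorem gcd_sum (n : ℕ) :
    ∑ k ∈ Icc 1 n, ∑ l ∈ Icc 1 n, (Nat.gcd k l : ℝ) * (1 / k) * (1 / l) ≤ HH n ^ 3 := by
  classical
  have h1 : ∀ k ∈ Icc 1 n, ∀ l ∈ Icc 1 n, (Nat.gcd k l : ℝ) * (1 / k) * (1 / l) ≤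
      ∑ e ∈ Icc 1 n, (e : ℝ) * (if e ∣ k then (1 : ℝ) / k else 0) *
        (if e ∣ l then (1 : ℝ) / l else 0) := by
    intro k hk l hl
    rw [mem_Icc] at hk hl
    have hg : Nat.gcd k l ∈ Icc 1 n := by
      rw [mem_Icc]
      exact ⟨Nat.gcd_pos_of_pos_left _ (by omega),
        (Nat.gcd_le_left _ (by omega)).trans hk.2⟩
    have h2 := Finset.single_le_sum (f := fun e : ℕ => (e : ℝ) *
      (if e ∣ k then (1 : ℝ) / k else 0) * (if e ∣ l then (1 : ℝ) / l else 0))
      (s := Icc 1 n) (fun e _ => by positivity) hg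
    refine le_trans (le_of_eq ?_) h2
    simp only [Nat.gcd_dvd_left, Nat.gcd_dvd_right, if_true]
  calc ∑ k ∈ Icc 1 n, ∑ l ∈ Icc 1 n, (Nat.gcd k l : ℝ) * (1 / k) * (1 / l)
      ≤ ∑ k ∈ Icc 1 n, ∑ l ∈ Icc 1 n, ∑ e ∈ Icc 1 n, (e : ℝ) *
        (if e ∣ k then (1 : ℝ) / k else 0) * (if e ∣ l then (1 : ℝ) / l else 0) :=
        Finset.sum_le_sum fun k hk => Finset.sum_le_sum fun l hl => h1 k hk l hl
    _ = ∑ e ∈ Icc 1 n, (e : ℝ) * (∑ k ∈ Icc 1 n, (if e ∣ k then (1 : ℝ) / k else 0)) *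
          (∑ l ∈ Icc 1 n, (if e ∣ l then (1 : ℝ) / l else 0)) := by
        rw [Finset.sum_congr rfl fun k _ => Finset.sum_comm]
        rw [Finset.sum_comm]
        refine Finset.sum_congr rfl fun e _ => ?_
        rw [mul_assoc, Finset.sum_mul_sum, Finset.mul_sum]
        refine Finset.sum_congr rfl fun k _ => ?_
        rw [Finset.mul_sum]
        refine Finset.sum_congr rfl fun l _ => ?_
        ring
    _ ≤ ∑ e ∈ Icc 1 n, (HH n ^ 2) * (1 / e) := by
        refine Finset.sum_le_sum fun e he => ?_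
        rw [mem_Icc] at he
        have he' : (0 : ℝ) < e := by exact_mod_cast (show 0 < e by omega)
        have h3 := sum_dvd n e (by omega)
        have h4 : 0 ≤ ∑ k ∈ Icc 1 n, (if e ∣ k then (1 : ℝ) / k else 0) :=
          Finset.sum_nonneg fun _ _ => by positivity
        calc (e : ℝ) * (∑ k ∈ Icc 1 n, (if e ∣ k then (1 : ℝ) / k else 0)) *
              (∑ l ∈ Icc 1 n, (if e ∣ l then (1 : ℝ) / l else 0))
            ≤ (e : ℝ) * (HH n / e) * (HH n / e) := by
              have h5 := HH_nonneg n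
              have h6 : 0 ≤ (e : ℝ) * (HH n / e) := by positivity
              gcongr
          _ = _ := by field_simp
    _ = _ := by
        rw [← Finset.mul_sum]
        change HH n ^ 2 * HH n = _
        ring

/-- `g_k = gcd(k,30)`. -/
def gk (k : ℕ) : ℕ := Nat.gcd k 30

theorem gk_pos (k : ℕ) : 0 < gk k := Nat.gcd_pos_of_pos_right _ (by norm_num)

/-- Weight `φ(g_k)/g_k`. -/
noncomputable def wk (k : ℕ) : ℝ := (Nat.totient (gk k) : ℝ) / gk k

theorem wk_nonneg (k : ℕ) : 0 ≤ wk k := by unfold wk; positivity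

theorem wk_le_one (k : ℕ) : wk k ≤ 1 := by
  unfold wk
  have := gk_pos k
  rw [div_le_one (by exact_mod_cast this)]
  exact_mod_cast Nat.totient_le _

theorem wk_periodic (k q : ℕ) : wk (k + 30 * q) = wk k := by
  unfold wk gk
  rw [Nat.gcd_add_mul_left_left]

theorem wk_sum (n : ℕ) : ∑ k ∈ Icc 1 n, wk k ≤ 0.64 * n + 12 := by
  have hblock : ∀ q : ℕ, ∑ k ∈ Icc 1 (30 * q), wk k = 19.2 * q := by
    intro q
    induction q with
    | zero => simp
    | succ q ih =>
      have h1 : ∑ k ∈ Icc 1 (30 * (q + 1)), wk k =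
          ∑ k ∈ Icc 1 (30 * q), wk k + ∑ r ∈ Icc 1 30, wk (r + 30 * q) := by
        rw [show Icc 1 (30 * (q + 1)) = Ico 1 (30 * q + 31) by ext; simp <;> omega,
          show Icc 1 (30 * q) = Ico 1 (30 * q + 1) by ext; simp <;> omega,
          show Icc 1 30 = Ico 1 31 by ext; simp <;> omega]
        rw [← Finset.sum_Ico_consecutive _ (show 1 ≤ 30 * q + 1 by omega)
          (show 30 * q + 1 ≤ 30 * q + 31 by omega)]
        congr 1
        rw [Finset.sum_Ico_add' (fun x => wk x) 1 31 (30 * q)]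
        congr 1
        ext; simp <;> omega
      rw [h1, ih, Finset.sum_congr rfl fun r _ => wk_periodic r q]
      have h2 : ∑ r ∈ Icc 1 30, wk r = 19.2 := by
        have h3 : ∀ r ∈ Icc 1 30, wk r = ((((Nat.totient (Nat.gcd r 30) : ℚ)) / (Nat.gcd r 30 : ℚ) : ℚ) : ℝ) := by
          intro r _
          unfold wk gk
          push_cast; rfl
        rw [Finset.sum_congr rfl h3, ← Rat.cast_sum]
        have h4 : ∑ r ∈ Icc 1 30, ((Nat.totient (Nat.gcd r 30) : ℚ)) / (Nat.gcd r 30 : ℚ) = 96 / 5 := by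
          decide +kernel
        rw [h4]; norm_num
      rw [h2]; push_cast; ring
  have hn : n = 30 * (n / 30) + n % 30 := (Nat.div_add_mod n 30).symm
  have hr : n % 30 < 30 := Nat.mod_lt _ (by norm_num)
  set q := n / 30
  set r := n % 30
  have h1 : ∑ k ∈ Icc 1 n, wk k = ∑ k ∈ Icc 1 (30 * q), wk k + ∑ k ∈ Ico (30 * q + 1) (n + 1), wk k := by
    rw [show Icc 1 n = Ico 1 (n + 1) by ext; simp <;> omega,
      show Icc 1 (30 * q) = Ico 1 (30 * q + 1) by ext; simp <;> omega]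
    rw [← Finset.sum_Ico_consecutive _ (show 1 ≤ 30 * q + 1 by omega)
          (show 30 * q + 1 ≤ n + 1 by omega)]
  have h2 : ∑ k ∈ Ico (30 * q + 1) (n + 1), wk k ≤ r := by
    calc _ ≤ ∑ k ∈ Ico (30 * q + 1) (n + 1), (1 : ℝ) := Finset.sum_le_sum fun k _ => wk_le_one k
      _ = r := by
        rw [Finset.sum_const, Nat.card_Ico, nsmul_eq_mul, mul_one]
        congr 1; omega
  rw [h1, hblock]
  have h3 : (n : ℝ) = 30 * q + r := by exact_mod_cast hn
  have h4 : (r : ℝ) ≤ 29 := by exact_mod_cast (show r ≤ 29 by omega)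
  rw [h3]
  have h5 : (0 : ℝ) ≤ r := by positivity
  linarith

end Pool.Agent.Q246.RO
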