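import Pool.Agent.Q246.RO.Main

open MeasureTheory Set
open scoped ENNReal

namespace Pool.Agent.Q246.RO

/-- The event `τ₁ < τ₂` on the torus. -/
def EE (δ : ℝ) : Set (TT × TT) :=
  {p | ∃ n : ℕ, 1 ≤ n ∧ n • p.1 - p.2 ∈ ar 0 δ ∧ p.1 - p.2 ∉ Hit n 0 δ}

theorem FF_subset {δ h : ℝ} {L n i : ℕ} (hh : 0 ≤ h) (hL : (L : ℝ) * h = δ) (hn : 1 ≤ n) (hi : i < L) :
    FF δ h n i ⊆ EE δ := by
  rintro p ⟨h1, _, h3⟩
  refine ⟨n, hn, ?_, h3⟩
  obtain ⟨s, ⟨hs1, hs2⟩, hs3⟩ := h1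
  refine ⟨s, ⟨le_trans (by positivity) hs1, ?_⟩, hs3⟩
  have : ((i : ℝ) + 1) ≤ L := by exact_mod_cast hi
  nlinarith

theorem FF_disj_lt {δ h : ℝ} {L n m i j : ℕ} (hh : 0 ≤ h) (hL : (L : ℝ) * h = δ) (hm : 1 ≤ m)
    (hmn : m < n) (hj : j < L) {p : TT × TT} (h1 : p ∈ FF δ h n i) (h2 : p ∈ FF δ h m j) : False := by
  obtain ⟨⟨s, ⟨hs1, hs2⟩, hs3⟩, hA, _⟩ := h1
  obtain ⟨⟨t, ⟨ht1, ht2⟩, ht3⟩, _, _⟩ := h2
  apply hA
  have hjL : ((j : ℝ) + 1) ≤ L := by exact_mod_cast hj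
  have ht0 : 0 ≤ t := le_trans (by positivity) ht1
  have htδ : t < δ := by nlinarith
  refine ⟨n - m, by omega, by omega, s - t, by linarith, by nlinarith, ?_⟩
  have h3 : ((s : ℝ) : TT) = n • p.1 - p.2 := hs3
  have h4 : ((t : ℝ) : TT) = m • p.1 - p.2 := ht3
  rw [AddCircle.coe_sub, h3, h4]
  have h5 : n • p.1 = (n - m) • p.1 + m • p.1 := by
    rw [← add_smul]; congr 1; omega
  rw [h5]; abel

theorem FF_disj {δ h : ℝ} {L : ℕ} (hh : 0 < h) (hL : (L : ℝ) * h = δ) (hδ1 : δ ≤ 1)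
    {x y : ℕ × ℕ} (hx : 1 ≤ x.1 ∧ x.2 < L) (hy : 1 ≤ y.1 ∧ y.2 < L) (hxy : x ≠ y) :
    Disjoint (FF δ h x.1 x.2) (FF δ h y.1 y.2) := by
  rw [Set.disjoint_left]
  intro p h1 h2
  rcases lt_trichotomy x.1 y.1 with hlt | heq | hgt
  · exact FF_disj_lt hh.le hL hx.1 hlt hx.2 h2 h1
  · obtain ⟨⟨s, ⟨hs1, hs2⟩, hs3⟩, _, _⟩ := h1
    obtain ⟨⟨t, ⟨ht1, ht2⟩, ht3⟩, _, _⟩ := h2
    have h3 : ((s : ℝ) : TT) = x.1 • p.1 - p.2 := hs3
    have h4 : ((t : ℝ) : TT) = y.1 • p.1 - p.2 := ht3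
    rw [heq] at h3
    obtain ⟨m, hm⟩ := (coe_eq_iff s t).1 (h3.trans h4.symm)
    have hx2 : ((x.2 : ℝ) + 1) ≤ L := by exact_mod_cast hx.2
    have hy2 : ((y.2 : ℝ) + 1) ≤ L := by exact_mod_cast hy.2
    have hs0 : 0 ≤ s := le_trans (by positivity) hs1
    have ht0 : 0 ≤ t := le_trans (by positivity) ht1
    have hsδ : s < δ := by nlinarith
    have htδ : t < δ := by nlinarith
    have hm1 : (m : ℝ) < 1 := by rw [← hm]; linarith
    have hm2 : (-1 : ℝ) < m := by rw [← hm]; linarith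
    have hm3 : m < 1 := by exact_mod_cast hm1
    have hm4 : -1 < m := by exact_mod_cast hm2
    have hm5 : m = 0 := by omega
    rw [hm5] at hm; push_cast at hm
    have hst : s = t := by linarith
    have h5 : (x.2 : ℝ) < y.2 + 1 := by
      by_contra hc
      push Not at hc
      nlinarith
    have h6 : (y.2 : ℝ) < x.2 + 1 := by
      by_contra hc
      push Not at hc
      nlinarith
    have h7 : x.2 < y.2 + 1 := by exact_mod_cast h5
    have h8 : y.2 < x.2 + 1 := by exact_mod_cast h6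
    exact hxy (Prod.ext heq (by omega))
  · exact FF_disj_lt hh.le hL hy.1 hgt hy.2 h1 h2

theorem EE_lower {δ h : ℝ} {L N : ℕ} (hh : 0 < h) (hL : (L : ℝ) * h = δ) (hδ1 : δ ≤ 1) :
    ∑ n ∈ Finset.Icc 2 N, ∑ i ∈ Finset.range L,
      ((volume : Measure TT).prod (volume : Measure TT)).real (FF δ h n i) ≤
      ((volume : Measure TT).prod (volume : Measure TT)).real (EE δ) := by
  rw [← Finset.sum_product' (Finset.Icc 2 N) (Finset.range L)
    (fun n i => ((volume : Measure TT).prod (volume : Measure TT)).real (FF δ h n i))]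
  rw [← measureReal_biUnion_finset (f := fun x : ℕ × ℕ => FF δ h x.1 x.2)]
  · refine measureReal_mono ?_ (measure_ne_top _ _)
    intro p hp
    simp only [mem_iUnion] at hp
    obtain ⟨x, hx, hpx⟩ := hp
    rw [Finset.mem_product, Finset.mem_Icc, Finset.mem_range] at hx
    exact FF_subset hh.le hL (by omega) hx.2 hpx
  · intro x hx y hy hxy
    rw [Finset.mem_coe, Finset.mem_product, Finset.mem_Icc, Finset.mem_range] at hx hy
    exact FF_disj hh hL hδ1 ⟨by omega, hx.2⟩ ⟨by omega, hy.2⟩ hxy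
  · intro x _
    exact measurableSet_FF δ h x.1 x.2

end Pool.Agent.Q246.RO
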