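import Pool.Agent.Q246.RO.Arc
import Pool.Agent.Q246.RO.Sums

open MeasureTheory Set
open scoped ENNReal

namespace Pool.Agent.Q246.RO

/-- Points `c` with `k c ∈ [lo, hi)` modulo one for some `1 ≤ k ≤ K`. -/
def Hit (K : ℕ) (lo hi : ℝ) : Set TT :=
  {c | ∃ k : ℕ, 1 ≤ k ∧ k ≤ K ∧ ∃ s : ℝ, lo ≤ s ∧ s < hi ∧ k • c = ((s : ℝ) : TT)}

def jk (k : ℕ) : ℕ := k / gk k

def UU (k : ℕ) : Finset ℕ := (Finset.range (gk k)).filter fun b => (gk k).Coprime b

theorem gk_dvd (k : ℕ) : gk k ∣ k := Nat.gcd_dvd_left _ _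

theorem jk_mul (k : ℕ) : gk k * jk k = k := Nat.mul_div_cancel' (gk_dvd k)

theorem jk_pos {k : ℕ} (hk : 0 < k) : 0 < jk k := by
  have := jk_mul k
  rcases Nat.eq_zero_or_pos (jk k) with h | h
  · rw [h] at this; omega
  · exact h

theorem card_UU (k : ℕ) : (UU k).card = Nat.totient (gk k) :=
  (Nat.totient_eq_card_coprime (gk k)).symm

theorem Hit_subset (K : ℕ) {lo hi : ℝ} (hlo : lo ≤ 0) (hhi : 0 ≤ hi) :
    Hit K lo hi ⊆ ⋃ k ∈ Finset.Icc 1 K, ⋃ b ∈ UU k,
      {c : TT | jk k • c ∈ ar (((b : ℝ) + lo) / gk k) ((hi - lo) / gk k)} := by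
  rintro c ⟨k, hk1, hkK, s, hs1, hs2, hks⟩
  obtain ⟨x, rfl⟩ := QuotientAddGroup.mk_surjective c
  have hks' : (((k : ℝ) * x : ℝ) : TT) = (s : TT) := by
    rw [← nsmul_eq_mul, AddCircle.coe_nsmul]; exact hks
  obtain ⟨p, hp⟩ := (coe_eq_iff _ _).1 hks'
  set e := Int.gcd p k with he
  have he0 : 0 < e := Int.gcd_pos_of_ne_zero_right _ (by omega)
  have he0' : (0 : ℝ) < e := by exact_mod_cast he0
  obtain ⟨p', hp'⟩ := Int.gcd_dvd_left (a := p) (b := (k : ℤ))
  obtain ⟨k'z, hk'z⟩ := Int.gcd_dvd_right (a := p) (b := (k : ℤ))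
  rw [← he] at hp' hk'z
  have hk'pos : 0 < k'z := by
    by_contra h
    have : (e : ℤ) * k'z ≤ 0 := mul_nonpos_of_nonneg_of_nonpos (by positivity) (by omega)
    omega
  obtain ⟨k', rfl⟩ := Int.eq_ofNat_of_zero_le hk'pos.le
  have hkk' : k = e * k' := by exact_mod_cast hk'z
  have hk'1 : 1 ≤ k' := by omega
  have hk'K : k' ≤ K := by nlinarith
  have hcop : Int.gcd p' k' = 1 := by
    have h1 : Int.gcd p k = e * Int.gcd p' k' := by
      rw [hp', hkk']; push_cast; rw [Int.gcd_mul_left]; simp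
    rw [← he] at h1
    exact (Nat.eq_of_mul_eq_mul_left he0 (by omega : e * 1 = e * Int.gcd p' k')).symm
  -- k' x = s/e + p'
  have hx : (k' : ℝ) * x = s / e + p' := by
    have h1 : (k : ℝ) = e * k' := by exact_mod_cast hkk'
    have h2 : (p : ℝ) = e * p' := by exact_mod_cast hp'
    rw [h1, h2] at hp
    have h3 : (e : ℝ) * (k' * x) = e * (s / e + p') := by
      rw [mul_add, mul_div_cancel₀ _ he0'.ne']; linarith
    exact mul_left_cancel₀ he0'.ne' h3
  set g := gk k' with hg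
  have hg0 : 0 < g := gk_pos k'
  have hg0' : (0 : ℝ) < g := by exact_mod_cast hg0
  have hse1 : lo ≤ s / e := by
    rw [le_div_iff₀ he0']
    have : (1 : ℝ) ≤ e := by exact_mod_cast he0
    nlinarith
  have hse2 : s / e < hi := by
    rw [div_lt_iff₀ he0']
    have : (1 : ℝ) ≤ e := by exact_mod_cast he0
    nlinarith
  have hb0 : 0 ≤ p' % g := Int.emod_nonneg _ (by omega)
  have hb1 : p' % g < g := Int.emod_lt_of_pos _ (by omega)
  obtain ⟨b, hb⟩ := Int.eq_ofNat_of_zero_le hb0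
  have hbg : b < g := by omega
  have hbcop : Nat.Coprime g b := by
    set d := Nat.gcd g b with hd
    have h1 : (d : ℤ) ∣ g := by exact_mod_cast Nat.gcd_dvd_left g b
    have h2 : (d : ℤ) ∣ b := by exact_mod_cast Nat.gcd_dvd_right g b
    have h3 : (d : ℤ) ∣ k' := h1.trans (by exact_mod_cast gk_dvd k')
    have h4 : (d : ℤ) ∣ p' := by
      have := Int.emod_add_mul_ediv p' g
      rw [hb] at this
      rw [← this]
      exact dvd_add h2 (Dvd.dvd.mul_right h1 _)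
    have h5 : (d : ℤ) ∣ (Int.gcd p' k' : ℤ) := Int.dvd_coe_gcd h4 h3
    rw [hcop] at h5
    have h6 : d ∣ 1 := by exact_mod_cast h5
    exact Nat.dvd_one.1 h6
  simp only [mem_iUnion]
  refine ⟨k', by rw [Finset.mem_Icc]; exact ⟨hk'1, hk'K⟩, b, ?_, ?_⟩
  · rw [UU, Finset.mem_filter, Finset.mem_range]; exact ⟨hbg, hbcop⟩
  · rw [mem_ofPred_eq]
    have hj : (g : ℝ) * jk k' = k' := by exact_mod_cast jk_mul k'
    have hpb : (p' : ℝ) = b + g * (p' / g : ℤ) := by
      have := Int.emod_add_mul_ediv p' g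
      rw [hb] at this
      exact_mod_cast this.symm
    refine ⟨((b : ℝ) + s / e) / g, ⟨?_, ?_⟩, ?_⟩
    · gcongr
    · rw [← add_div, div_lt_div_iff_of_pos_right hg0']; linarith
    · change ((_ : ℝ) : TT) = jk k' • ((x : ℝ) : TT)
      rw [← AddCircle.coe_nsmul, nsmul_eq_mul, coe_eq_iff]
      refine ⟨-(p' / g), ?_⟩
      have h4 : (jk k' : ℝ) * x = (s / e + p') / g := by
        rw [eq_div_iff hg0'.ne', ← hx, ← hj]; ring
      rw [h4, hpb]
      push_cast
      field_simp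
      ring

theorem measurable_nsmul (j : ℕ) : Measurable (fun x : TT => j • x) :=
  (continuous_nsmul j).measurable

theorem measurableSet_Hit (K : ℕ) (lo hi : ℝ) : MeasurableSet (Hit K lo hi) := by
  have : Hit K lo hi = ⋃ k ∈ Finset.Icc 1 K, (fun x : TT => k • x) ⁻¹' ar lo (hi - lo) := by
    ext c
    simp only [Hit, mem_ofPred_eq, mem_iUnion, mem_preimage, Finset.mem_Icc, ar, mem_image, mem_Ico]
    constructor
    · rintro ⟨k, h1, h2, s, h3, h4, h5⟩
      exact ⟨k, ⟨h1, h2⟩, s, ⟨h3, by linarith⟩, h5.symm⟩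
    · rintro ⟨k, ⟨h1, h2⟩, s, ⟨h3, h4⟩, h5⟩
      exact ⟨k, h1, h2, s, h3, by linarith, h5.symm⟩
  rw [this]
  exact Finset.measurableSet_biUnion _ fun k _ => measurable_nsmul k (measurableSet_ar _ _)

theorem vol_Hit_le (K : ℕ) {lo hi : ℝ} (hlo : lo ≤ 0) (hhi : 0 ≤ hi) :
    (volume : Measure TT) (Hit K lo hi) ≤
      ENNReal.ofReal ((hi - lo) * ∑ k ∈ Finset.Icc 1 K, wk k) := by
  have hlh : 0 ≤ hi - lo := by linarith
  calc (volume : Measure TT) (Hit K lo hi)
      ≤ volume (⋃ k ∈ Finset.Icc 1 K, ⋃ b ∈ UU k,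
      {c : TT | jk k • c ∈ ar (((b : ℝ) + lo) / gk k) ((hi - lo) / gk k)}) :=
        measure_mono (Hit_subset K hlo hhi)
    _ ≤ ∑ k ∈ Finset.Icc 1 K, ∑ b ∈ UU k, volume
      {c : TT | jk k • c ∈ ar (((b : ℝ) + lo) / gk k) ((hi - lo) / gk k)} :=
        (measure_biUnion_finset_le _ _).trans
          (Finset.sum_le_sum fun k _ => measure_biUnion_finset_le _ _)
    _ ≤ ∑ k ∈ Finset.Icc 1 K, ∑ b ∈ UU k, ENNReal.ofReal ((hi - lo) / gk k) := by
        refine Finset.sum_le_sum fun k hk => Finset.sum_le_sum fun b _ => ?_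
        rw [Finset.mem_Icc] at hk
        have := (mp_nsmul (jk_pos (show 0 < k by omega))).measure_preimage
          (measurableSet_ar (((b : ℝ) + lo) / gk k) ((hi - lo) / gk k)).nullMeasurableSet
        refine (le_of_eq this).trans (vol_ar_le _ _)
    _ = ENNReal.ofReal (∑ k ∈ Finset.Icc 1 K, (Nat.totient (gk k) : ℝ) * ((hi - lo) / gk k)) := by
        rw [ENNReal.ofReal_sum_of_nonneg (fun k _ => by positivity)]
        refine Finset.sum_congr rfl fun k _ => ?_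
        rw [Finset.sum_const, card_UU, nsmul_eq_mul, ENNReal.ofReal_mul (by positivity),
          ENNReal.ofReal_natCast]
    _ = _ := by
        congr 1
        rw [Finset.mul_sum]
        refine Finset.sum_congr rfl fun k _ => ?_
        unfold wk; ring

theorem piece (x : TT) {j : ℕ} (hj : 0 < j) (β : ℝ) {α h : ℝ} (_ : 0 ≤ α) (_ : 0 ≤ h)
    (hle : j * h + α ≤ 1) :
    (volume : Measure TT) {u | u ∈ ar 0 h ∧ j • (x + u) ∈ ar β α} ≤
      ENNReal.ofReal (α / j * ({x : TT | j • x ∈ ar (β - j * h) (j * h + α)}.indicator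
        (fun _ => (1 : ℝ)) x)) := by
  have hj' : (0 : ℝ) < j := by exact_mod_cast hj
  by_cases hne : ∃ u : TT, u ∈ ar 0 h ∧ j • (x + u) ∈ ar β α
  · obtain ⟨u, ⟨s0, ⟨hs0, hs0'⟩, rfl⟩, t, ⟨ht, ht'⟩, htx⟩ := hne
    have hr : j • x = ((t - j * s0 : ℝ) : TT) := by
      rw [AddCircle.coe_sub]
      change _ = ((t : ℝ) : TT) - _
      have h1 : (t : TT) = j • x + j • ((s0 : ℝ) : TT) := by rw [← smul_add]; exact htx
      rw [h1, ← nsmul_eq_mul, AddCircle.coe_nsmul]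
      abel
    set r := t - j * s0 with hrdef
    have hr1 : β - j * h ≤ r := by
      have : j * s0 ≤ j * h := by nlinarith
      linarith
    have hr2 : r < β + α := by
      have : 0 ≤ j * s0 := by positivity
      linarith
    have hmem : x ∈ {x : TT | j • x ∈ ar (β - j * h) (j * h + α)} := by
      rw [mem_ofPred_eq]
      exact ⟨r, ⟨hr1, by linarith⟩, hr.symm⟩
    rw [Set.indicator_of_mem hmem, mul_one]
    refine le_trans (measure_mono ?_) (vol_ar_le ((β - r) / j) (α / j))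
    rintro _ ⟨⟨s, ⟨hs, hs'⟩, rfl⟩, t', ⟨ht1, ht1'⟩, htx'⟩
    have h2 : ((r + j * s : ℝ) : TT) = ((t' : ℝ) : TT) := by
      rw [AddCircle.coe_add, ← hr, ← nsmul_eq_mul, AddCircle.coe_nsmul, ← smul_add]
      exact htx'.symm
    obtain ⟨m, hm⟩ := (coe_eq_iff _ _).1 h2
    have hjs : 0 ≤ j * s := by
      have : 0 ≤ s := hs
      positivity
    have hjs' : j * s < j * h := by
      have : s < h := by linarith
      exact mul_lt_mul_of_pos_left this hj'
    have h3 : (m : ℝ) < 1 := by rw [← hm]; linarith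
    have h4 : (-1 : ℝ) < m := by rw [← hm]; linarith
    have h5 : m < 1 := by exact_mod_cast h3
    have h6 : -1 < m := by exact_mod_cast h4
    have h7 : m = 0 := by omega
    rw [h7] at hm; push_cast at hm
    refine ⟨s, ⟨?_, ?_⟩, rfl⟩
    · rw [div_le_iff₀ hj']; linarith
    · rw [← add_div, lt_div_iff₀ hj']; linarith
  · have : {u : TT | u ∈ ar 0 h ∧ j • (x + u) ∈ ar β α} = ∅ := by
      ext u; simp only [mem_ofPred_eq, mem_empty_iff_false, iff_false]
      exact fun h => hne ⟨u, h⟩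
    rw [this]; simp

/-- Index set of the window function. -/
def KK (n : ℕ) : Finset (Σ _ : ℕ, ℕ) := (Finset.Icc 1 n).sigma UU

/-- Arc conditions. -/
def SS (δ h : ℝ) (i : Σ _ : ℕ, ℕ) : Set TT :=
  {x : TT | jk i.1 • x ∈ ar ((i.2 : ℝ) / gk i.1 - jk i.1 * h) (jk i.1 * h + δ / gk i.1)}

/-- Window function. -/
noncomputable def WW (n : ℕ) (δ h : ℝ) (x : TT) : ℝ :=
  ∑ i ∈ KK n, δ / (i.1 : ℝ) * (SS δ h i).indicator (fun _ => (1 : ℝ)) x

theorem jk_le (k : ℕ) : jk k ≤ k := Nat.div_le_self _ _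

theorem window (n : ℕ) {δ h : ℝ} (hδ : 0 ≤ δ) (hh : 0 ≤ h) (hle : n * h + δ ≤ 1) (x : TT) :
    (volume : Measure TT) {u | u ∈ ar 0 h ∧ x + u ∈ Hit n 0 δ} ≤ ENNReal.ofReal (WW n δ h x) := by
  have hsub : {u : TT | u ∈ ar 0 h ∧ x + u ∈ Hit n 0 δ} ⊆ ⋃ i ∈ KK n,
      {u : TT | u ∈ ar 0 h ∧ jk i.1 • (x + u) ∈ ar ((i.2 : ℝ) / gk i.1) (δ / gk i.1)} := by
    rintro u ⟨hu, hx⟩
    have := Hit_subset n le_rfl hδ hx
    simp only [mem_iUnion] at this
    obtain ⟨k, hk, b, hb, hc⟩ := this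
    simp only [mem_iUnion]
    refine ⟨⟨k, b⟩, Finset.mem_sigma.2 ⟨hk, hb⟩, hu, ?_⟩
    rw [mem_ofPred_eq, add_zero, sub_zero] at hc
    exact hc
  calc _ ≤ ∑ i ∈ KK n, volume
        {u : TT | u ∈ ar 0 h ∧ jk i.1 • (x + u) ∈ ar ((i.2 : ℝ) / gk i.1) (δ / gk i.1)} :=
        (measure_mono hsub).trans (measure_biUnion_finset_le _ _)
    _ ≤ ∑ i ∈ KK n, ENNReal.ofReal (δ / (i.1 : ℝ) * (SS δ h i).indicator (fun _ => (1 : ℝ)) x) := by
        refine Finset.sum_le_sum fun i hi => ?_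
        obtain ⟨hk, _⟩ := Finset.mem_sigma.1 hi
        rw [Finset.mem_Icc] at hk
        have hg : (1 : ℝ) ≤ gk i.1 := by exact_mod_cast gk_pos i.1
        have hj := jk_pos (show 0 < i.1 by omega)
        have hj' : (0 : ℝ) < jk i.1 := by exact_mod_cast hj
        have hjn : (jk i.1 : ℝ) ≤ n := by exact_mod_cast (jk_le i.1).trans hk.2
        have h1 : (jk i.1 : ℝ) * h + δ / gk i.1 ≤ 1 := by
          have : δ / gk i.1 ≤ δ := div_le_self hδ hg
          nlinarith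
        have := piece x hj ((i.2 : ℝ) / gk i.1) (α := δ / gk i.1) (h := h) (by positivity) hh h1
        refine this.trans (le_of_eq ?_)
        congr 2
        have h2 : (gk i.1 : ℝ) * jk i.1 = i.1 := by exact_mod_cast jk_mul i.1
        rw [← h2, div_div]
    _ = _ := by
        unfold WW
        rw [ENNReal.ofReal_sum_of_nonneg]
        intro i _
        refine mul_nonneg (by positivity) (Set.indicator_nonneg (fun _ _ => zero_le_one) _)

end Pool.Agent.Q246.RO
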